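import Pool.Agent.K1H85.ST.Rank

/-! # The entropic line sum (`S_LINE`) and monotonicity of `T` along lines -/

set_option autoImplicit false

noncomputable section

namespace Pool.Agent.K1H85.ST

open Pool.Agent.K1H64.ST
open Finset hiding box

theorem dot_update {n : ℕ} (a : Cube n) (x : Fin n → ℤ) (l : Fin n) (t : ℤ) :
    dot a (Function.update x l t) = dot a x + sn (a l) * (t - x l) := by
  have h : ∀ k, sn (a k) * (Function.update x l t) k =
      sn (a k) * x k + (if k = l then sn (a l) * (t - x l) else 0) := by
    intro k
    by_cases hk : k = l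
    · subst hk; simp; ring
    · simp [hk]
  unfold dot
  rw [Finset.sum_congr rfl (fun k _ => h k), Finset.sum_add_distrib]
  simp

theorem sn_ne {b c : Bool} (h : sn b < sn c) : b = false ∧ c = true := by
  cases b <;> cases c <;> simp [sn] at h ⊢

/-- Monotonicity of `T` along lines. -/
theorem mono_line {n : ℕ} {A : Finset (Cube n)} (P : Pot n A) (l : Fin n) (x : Fin n → ℤ)
    {s t : ℤ} (b : Bool) (hlt : sn b * s < sn b * t)
    (hne : P.T (Function.update x l s) ≠ P.T (Function.update x l t)) :
    P.T (Function.update x l s) l = !b ∧ P.T (Function.update x l t) l = b := by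
  set y := Function.update x l s with hy
  set z := Function.update x l t with hz
  have hzy : z = Function.update y l t := by rw [hy, hz, Function.update_idem]
  have hyl : y l = s := by rw [hy, Function.update_self]
  have h1 := P.best y (P.T z) (P.mem z) (Ne.symm hne)
  have h2 := P.best z (P.T y) (P.mem y) hne
  have e1 : ∀ a : Cube n, dot a z = dot a y + sn (a l) * (t - s) := by
    intro a; rw [hzy, dot_update, hyl]
  rw [e1, e1] at h2
  push_cast at h2
  have h3 : (0 : ℝ) < (((sn (P.T z l) - sn (P.T y l)) * (t - s) : ℤ) : ℝ) := by
    push_cast; linarith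
  have h4 : 0 < (sn (P.T z l) - sn (P.T y l)) * (t - s) := by exact_mod_cast h3
  cases b
  · simp only [sn, Bool.false_eq_true, if_false] at hlt
    have h5 : t - s < 0 := by linarith
    have h6 : sn (P.T z l) - sn (P.T y l) < 0 := by
      by_contra h
      push Not at h
      nlinarith
    have := sn_ne (show sn (P.T z l) < sn (P.T y l) by linarith)
    exact ⟨by simpa using this.2, this.1⟩
  · simp only [sn, if_true] at hlt
    have h5 : 0 < t - s := by linarith
    have h6 : 0 < sn (P.T z l) - sn (P.T y l) := by
      by_contra h
      push Not at h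
      nlinarith
    have := sn_ne (show sn (P.T y l) < sn (P.T z l) by linarith)
    exact ⟨by simpa using this.1, this.2⟩

theorem nb_update {n : ℕ} (x : Fin n → ℤ) (l : Fin n) (t : ℤ) (b : Bool) :
    nb (Function.update x l t) l b = Function.update x l (t + 2 * sn b) := by
  unfold nb
  rw [Function.update_self, Function.update_idem]

theorem W_congr {n : ℕ} (S : Finset (Fin n → ℤ)) (j : ℕ) {x y : Fin n → ℤ}
    (h : ∀ k : Fin n, (k : ℕ) < j → x k = y k) : W S j x = W S j y := by
  ext z
  simp only [W, mem_filter]
  constructor
  · rintro ⟨h1, h2⟩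
    exact ⟨h1, fun k hk => (h2 k hk).trans (h k hk)⟩
  · rintro ⟨h1, h2⟩
    exact ⟨h1, fun k hk => (h2 k hk).trans (h k hk).symm⟩

/-- The factor of the entropic chain. -/
def gg {n : ℕ} {A : Finset (Cube n)} (P : Pot n A) (M : ℕ) (l : Fin n) (x : Fin n → ℤ) : ℝ :=
  M * ((W (P.cell M (P.T x)) ((l : ℕ) + 1) x).card : ℝ) / ((W (P.cell M (P.T x)) (l : ℕ) x).card : ℝ)

/-- The weight of a jump edge. -/
def rho {n : ℕ} {A : Finset (Cube n)} (P : Pot n A) (M : ℕ) (l : Fin n) (b : Bool)
    (x : Fin n → ℤ) : ℝ :=
  if nb x l b ∈ grid n M ∧ P.T (nb x l b) ≠ P.T x then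
    rk (P.cell M (P.T (nb x l b))) b l (nb x l b) else 0

theorem line_claim {n : ℕ} {A : Finset (Cube n)} (P : Pot n A) {M : ℕ} (l : Fin n) (b : Bool)
    {x : Fin n → ℤ} (hx : x ∈ grid n M) :
    ∑ t ∈ box M, ((if P.T (Function.update x l t) l = b then gg P M l (Function.update x l t)
      else 0) + M * rho P M l b (Function.update x l t)) ≤ M := by
  set U := (box M).filter (fun t => P.T (Function.update x l t) l = b) with hU
  have hM0 : (0 : ℝ) ≤ M := by positivity
  -- a jump has its target in `U`
  have hjump : ∀ t ∈ box M, (nb (Function.update x l t) l b ∈ grid n M ∧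
      P.T (nb (Function.update x l t) l b) ≠ P.T (Function.update x l t)) →
      t + 2 * sn b ∈ U ∧ P.T (Function.update x l t) l = !b := by
    intro t ht h
    rw [nb_update] at h
    have hb : t + 2 * sn b ∈ box M := by
      have := mem_grid.1 h.1 l
      rwa [Function.update_self] at this
    have hlt : sn b * t < sn b * (t + 2 * sn b) := by
      have := sn_sq b
      nlinarith
    have h1 := mono_line P l x b hlt (Ne.symm h.2)
    exact ⟨mem_filter.2 ⟨hb, h1.2⟩, h1.1⟩
  rw [Finset.sum_add_distrib, ← Finset.sum_filter, ← Finset.mul_sum]
  rcases U.eq_empty_or_nonempty with hU0 | ⟨u0, hu0⟩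
  · have h1 : ∑ t ∈ box M, rho P M l b (Function.update x l t) = 0 := by
      refine Finset.sum_eq_zero (fun t ht => ?_)
      unfold rho
      rw [if_neg]
      intro h
      have := (hjump t ht h).1
      rw [hU0] at this
      simp at this
    rw [h1, ← hU, hU0]
    simp
  · -- the common value
    set a := P.T (Function.update x l u0) with ha
    have hmem : ∀ t ∈ U, t ∈ box M ∧ P.T (Function.update x l t) l = b := fun t ht => mem_filter.1 ht
    have hconst : ∀ t ∈ U, P.T (Function.update x l t) = a := by
      intro t ht
      by_contra hne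
      rcases lt_trichotomy (sn b * t) (sn b * u0) with h | h | h
      · have := mono_line P l x b h hne
        rw [(hmem t ht).2] at this
        simp at this
      · have : t = u0 := by
          have h1 := sn_sq b
          have : sn b * (sn b * t) = sn b * (sn b * u0) := by rw [h]
          rw [← mul_assoc, ← mul_assoc, h1, one_mul, one_mul] at this
          exact this
        rw [this] at hne
        exact hne rfl
      · have := mono_line P l x b h (Ne.symm hne)
        rw [(hmem u0 hu0).2] at this
        simp at this
    set C := P.cell M a with hC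
    set V := W C (l : ℕ) x with hV
    have hVupd : ∀ t, W C (l : ℕ) (Function.update x l t) = V := by
      intro t
      refine W_congr C _ (fun k hk => ?_)
      rw [Function.update_of_ne]
      intro h
      rw [h] at hk
      exact lt_irrefl _ hk
    have hCmem : ∀ t ∈ U, Function.update x l t ∈ C := by
      intro t ht
      rw [hC, Pot.cell, mem_filter]
      exact ⟨update_mem_grid hx l (hmem t ht).1, hconst t ht⟩
    have hVne : (0 : ℝ) < V.card := by
      have := mem_W_self (l : ℕ) (hCmem u0 hu0)
      rw [hVupd] at this
      exact_mod_cast Finset.card_pos.2 ⟨_, this⟩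
    have hW1 : ∀ t, W C ((l : ℕ) + 1) (Function.update x l t) = V.filter (fun z => z l = t) := by
      intro t
      ext z
      rw [hV]
      simp only [W, mem_filter]
      constructor
      · rintro ⟨h1, h2⟩
        refine ⟨⟨h1, fun k hk => ?_⟩, ?_⟩
        · rw [h2 k (by omega), Function.update_of_ne]
          intro h
          rw [h] at hk
          exact lt_irrefl _ hk
        · rw [h2 l (by omega), Function.update_self]
      · rintro ⟨⟨h1, h2⟩, h3⟩
        refine ⟨h1, fun k hk => ?_⟩
        by_cases hkl : k = l
        · subst hkl; rw [Function.update_self, h3]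
        · rw [Function.update_of_ne hkl]
          refine h2 k ?_
          have : (k : ℕ) ≠ l := fun h => hkl (Fin.ext h)
          omega
    have hG : ∑ t ∈ U, gg P M l (Function.update x l t) =
        M * ((V.filter (fun z => z l ∈ U)).card : ℝ) / V.card := by
      have h1 : ∀ t ∈ U, gg P M l (Function.update x l t) =
          M * ((V.filter (fun z => z l = t)).card : ℝ) / V.card := by
        intro t ht
        unfold gg
        rw [hconst t ht, ← hC, hW1, hVupd]
      rw [Finset.sum_congr rfl h1, ← Finset.sum_div, ← Finset.mul_sum]
      congr 2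
      have h2 := Finset.card_eq_sum_card_fiberwise (f := fun z : Fin n → ℤ => z l)
        (s := V.filter (fun z => z l ∈ U)) (t := U)
        (fun z hz => Finset.mem_coe.2 (mem_filter.1 (Finset.mem_coe.1 hz)).2)
      rw [h2]
      push_cast
      refine Finset.sum_congr rfl (fun t ht => ?_)
      congr 2
      ext z
      simp only [mem_filter]
      constructor
      · rintro ⟨h3, h4⟩
        exact ⟨⟨h3, by rw [h4]; exact ht⟩, h4⟩
      · rintro ⟨⟨h3, _⟩, h4⟩
        exact ⟨h3, h4⟩
    have hR : ∑ t ∈ box M, rho P M l b (Function.update x l t) ≤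
        ((V.filter (fun z => ¬ z l ∈ U)).card : ℝ) / V.card := by
      by_cases hex : ∃ t0 ∈ box M, nb (Function.update x l t0) l b ∈ grid n M ∧
          P.T (nb (Function.update x l t0) l b) ≠ P.T (Function.update x l t0)
      · obtain ⟨t0, ht0, hj0⟩ := hex
        obtain ⟨hs0, hb0⟩ := hjump t0 ht0 hj0
        -- elements of `U` are not strictly below the target
        have hge : ∀ s ∈ U, sn b * (t0 + 2 * sn b) ≤ sn b * s := by
          intro s hs
          by_contra hlt
          push Not at hlt
          have hsb := hmem s hs
          have hts : sn b * t0 < sn b * s := by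
            by_contra hle
            push Not at hle
            have hne : P.T (Function.update x l s) ≠ P.T (Function.update x l t0) := by
              intro h
              rw [h, hb0] at hsb
              simp at hsb
            rcases hle.lt_or_eq with h | h
            · have := (mono_line P l x b h hne).1
              rw [hsb.2] at this
              simp at this
            · apply hne
              have h1 := sn_sq b
              have : sn b * (sn b * s) = sn b * (sn b * t0) := by rw [h]
              rw [← mul_assoc, ← mul_assoc, h1, one_mul, one_mul] at this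
              rw [this]
          have o1 := (mem_box.1 ht0).2
          have o2 := (mem_box.1 hsb.1).2
          obtain ⟨i, hi⟩ := o1
          obtain ⟨j, hj⟩ := o2
          cases b
          · simp only [sn, Bool.false_eq_true, if_false] at hlt hts
            omega
          · simp only [sn, if_true] at hlt hts
            omega
        rw [Finset.sum_eq_single t0]
        · unfold rho
          rw [if_pos hj0, nb_update, hconst _ hs0, ← hC]
          unfold rk
          rw [pre_eq_W, hVupd, Function.update_self]
          have hsub : V.filter (fun z => sn b * z l < sn b * (t0 + 2 * sn b)) ⊆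
              V.filter (fun z => ¬ z l ∈ U) := by
            intro z hz
            rw [mem_filter] at hz ⊢
            exact ⟨hz.1, fun h => absurd hz.2 (not_lt.2 (hge _ h))⟩
          gcongr
        · intro t ht hne
          unfold rho
          rw [if_neg]
          intro hj
          obtain ⟨hs, hbt⟩ := hjump t ht hj
          have h1 := hge _ hs
          -- and conversely
          have h2 : sn b * (t + 2 * sn b) ≤ sn b * (t0 + 2 * sn b) := by
            by_contra hlt
            push Not at hlt
            -- `t0 + 2 sn b ≤ t`, then mono gives a contradiction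
            have h3 : sn b * (t0 + 2 * sn b) ≤ sn b * t := by
              have o1 := (mem_box.1 ht0).2
              have o2 := (mem_box.1 ht).2
              obtain ⟨i, hi⟩ := o1
              obtain ⟨j, hj⟩ := o2
              cases b
              · simp only [sn, Bool.false_eq_true, if_false] at hlt ⊢
                omega
              · simp only [sn, if_true] at hlt ⊢
                omega
            have hne' : P.T (Function.update x l (t0 + 2 * sn b)) ≠
                P.T (Function.update x l t) := by
              intro h
              have h4 := (hmem _ hs0).2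
              rw [h, hbt] at h4
              simp at h4
            rcases h3.lt_or_eq with h | h
            · have := (mono_line P l x b h hne').1
              rw [(hmem _ hs0).2] at this
              simp at this
            · apply hne'
              have h1 := sn_sq b
              have : sn b * (sn b * (t0 + 2 * sn b)) = sn b * (sn b * t) := by rw [h]
              rw [← mul_assoc, ← mul_assoc, h1, one_mul, one_mul] at this
              rw [this]
          apply hne
          have h3 : sn b * (t + 2 * sn b) = sn b * (t0 + 2 * sn b) := le_antisymm h2 h1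
          have h4 := sn_sq b
          have : sn b * (sn b * (t + 2 * sn b)) = sn b * (sn b * (t0 + 2 * sn b)) := by rw [h3]
          rw [← mul_assoc, ← mul_assoc, h4, one_mul, one_mul] at this
          linarith
        · intro h
          exact absurd ht0 h
      · rw [Finset.sum_eq_zero]
        · positivity
        · intro t ht
          unfold rho
          rw [if_neg]
          intro hj
          exact hex ⟨t, ht, hj⟩
    rw [← hU, hG]
    have hcard : ((V.filter (fun z => z l ∈ U)).card : ℝ) + ((V.filter (fun z => ¬ z l ∈ U)).card : ℝ)
        = V.card := by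
      exact_mod_cast Finset.card_filter_add_card_filter_not (s := V) (fun z => z l ∈ U)
    calc M * ((V.filter (fun z => z l ∈ U)).card : ℝ) / V.card +
        M * ∑ t ∈ box M, rho P M l b (Function.update x l t)
        ≤ M * ((V.filter (fun z => z l ∈ U)).card : ℝ) / V.card +
          M * (((V.filter (fun z => ¬ z l ∈ U)).card : ℝ) / V.card) := by gcongr
      _ = M * ((((V.filter (fun z => z l ∈ U)).card : ℝ) +
          ((V.filter (fun z => ¬ z l ∈ U)).card : ℝ)) / V.card) := by ring
      _ = M := by rw [hcard, div_self hVne.ne', mul_one]

theorem JE_sum {n : ℕ} {A : Finset (Cube n)} (P : Pot n A) (M : ℕ) :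
    ∑ t ∈ P.JE M, rk (P.cell M (P.T (nb t.1 t.2.1 t.2.2))) t.2.2 t.2.1 (nb t.1 t.2.1 t.2.2) =
    ∑ x ∈ grid n M, ∑ l : Fin n, ∑ b : Bool, rho P M l b x := by
  unfold Pot.JE
  rw [Finset.sum_filter, Finset.sum_product]
  refine Finset.sum_congr rfl (fun x _ => ?_)
  rw [Finset.sum_product]
  refine Finset.sum_congr rfl (fun l _ => Finset.sum_congr rfl (fun b _ => ?_))
  rfl

theorem t_LINE : S_LINE := by
  intro n hn A M hM P hB
  have hM0 : (0 : ℝ) < M := by exact_mod_cast hM
  rw [JE_sum]
  -- entropy
  have hent : ∑ x ∈ grid n M, ∑ l : Fin n, (1 - gg P M l x) ≤ (2 * M) ^ n := by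
    calc ∑ x ∈ grid n M, ∑ l : Fin n, (1 - gg P M l x) ≤ ∑ x ∈ grid n M, (1 : ℝ) := by
          refine Finset.sum_le_sum (fun x hx => ?_)
          have hxC : x ∈ P.cell M (P.T x) := by rw [Pot.cell, mem_filter]; exact ⟨hx, rfl⟩
          refine (chain hM _ x hxC).trans ?_
          have hb := (hB _ (P.mem x)).2
          have hpos : (0 : ℝ) < ((P.cell M (P.T x)).card : ℝ) := by
            exact_mod_cast Finset.card_pos.2 ⟨x, hxC⟩
          rw [Real.log_le_iff_le_exp (by positivity), div_le_iff₀ (by positivity)]
          have he := Real.exp_one_gt_d9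
          have hMn : (0 : ℝ) < (M : ℝ) ^ n := by positivity
          nlinarith
      _ = (2 * M) ^ n := by
          rw [Finset.sum_const, card_grid]; push_cast; ring
  -- lines
  have hlines : ∀ (l : Fin n) (b : Bool), ∑ x ∈ grid n M,
      ((if P.T x l = b then gg P M l x else 0) + M * rho P M l b x) ≤ (2 * M) ^ n / 2 := by
    intro l b
    have h1 := line_sum (M := M) l
      (fun x => (if P.T x l = b then gg P M l x else 0) + M * rho P M l b x)
    have h2 : ∑ x ∈ grid n M, ∑ t ∈ box M, ((if P.T (Function.update x l t) l = b then
        gg P M l (Function.update x l t) else 0) + M * rho P M l b (Function.update x l t)) ≤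
        (2 * M) ^ n * M := by
      calc _ ≤ ∑ x ∈ grid n M, (M : ℝ) := Finset.sum_le_sum (fun x hx => line_claim P l b hx)
        _ = _ := by rw [Finset.sum_const, card_grid]; push_cast; ring
    rw [h1] at h2
    have h3 : (0 : ℝ) < 2 * M := by positivity
    rw [← mul_le_mul_iff_right₀ h3]
    linarith
  have htot : ∑ l : Fin n, ∑ b : Bool, ∑ x ∈ grid n M,
      ((if P.T x l = b then gg P M l x else 0) + M * rho P M l b x) ≤ n * (2 * M) ^ n := by
    calc _ ≤ ∑ l : Fin n, ∑ b : Bool, ((2 * M : ℝ) ^ n / 2) :=
          Finset.sum_le_sum (fun l _ => Finset.sum_le_sum (fun b _ => hlines l b))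
      _ = _ := by
          simp only [Finset.sum_const, Finset.card_univ, Fintype.card_fin, Fintype.card_bool,
            nsmul_eq_mul]
          push_cast
          ring
  have hre : ∑ l : Fin n, ∑ b : Bool, ∑ x ∈ grid n M,
      ((if P.T x l = b then gg P M l x else 0) + M * rho P M l b x) =
      ∑ x ∈ grid n M, ∑ l : Fin n, gg P M l x +
        M * ∑ x ∈ grid n M, ∑ l : Fin n, ∑ b : Bool, rho P M l b x := by
    have h1 : ∀ l : Fin n, ∑ b : Bool, ∑ x ∈ grid n M,
        ((if P.T x l = b then gg P M l x else 0) + M * rho P M l b x) =
        ∑ x ∈ grid n M, (gg P M l x + M * ∑ b : Bool, rho P M l b x) := by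
      intro l
      rw [Finset.sum_comm]
      refine Finset.sum_congr rfl (fun x _ => ?_)
      rw [Finset.sum_add_distrib, ← Finset.mul_sum]
      congr 1
      rw [Finset.sum_ite_eq]
      simp
    rw [Finset.sum_congr rfl (fun l _ => h1 l), Finset.sum_comm]
    rw [Finset.mul_sum, ← Finset.sum_add_distrib]
    refine Finset.sum_congr rfl (fun x _ => ?_)
    rw [Finset.mul_sum, ← Finset.sum_add_distrib]
  rw [hre] at htot
  have hent' : (n : ℝ) * (2 * M) ^ n - ∑ x ∈ grid n M, ∑ l : Fin n, gg P M l x ≤ (2 * M) ^ n := by
    have : ∑ x ∈ grid n M, ∑ l : Fin n, (1 - gg P M l x) =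
        (n : ℝ) * (2 * M) ^ n - ∑ x ∈ grid n M, ∑ l : Fin n, gg P M l x := by
      simp only [Finset.sum_sub_distrib]
      congr 1
      simp only [Finset.sum_const, card_grid, Finset.card_univ, Fintype.card_fin, nsmul_eq_mul]
      push_cast; ring
    rw [← this]; exact hent
  have hfin : M * ∑ x ∈ grid n M, ∑ l : Fin n, ∑ b : Bool, rho P M l b x ≤ (2 * M) ^ n := by
    linarith
  have hpow : (2 * (M : ℝ)) ^ n = M * (2 * (2 * M) ^ (n - 1)) := by
    obtain ⟨m, rfl⟩ : ∃ m, n = m + 1 := ⟨n - 1, by omega⟩
    simp only [Nat.add_sub_cancel]
    ring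
  rw [hpow] at hfin
  exact le_of_mul_le_mul_left hfin hM0

end Pool.Agent.K1H85.ST
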