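import Pool.Agent.K1H85.ST.Basic

/-! # The rank lemma and the faces of a cell (`S_RANK`, `S_TOP`) -/

set_option autoImplicit false

noncomputable section

namespace Pool.Agent.K1H85.ST

open Pool.Agent.K1H64.ST
open Finset hiding box

theorem mem_pre {n : ℕ} {S : Finset (Fin n → ℤ)} {l : Fin n} {x z : Fin n → ℤ} :
    z ∈ pre S l x ↔ z ∈ S ∧ ∀ k, k < l → z k = x k := by
  simp [pre]

theorem pre_congr {n : ℕ} (S : Finset (Fin n → ℤ)) (l : Fin n) {x y : Fin n → ℤ}
    (h : ∀ k, k < l → x k = y k) : pre S l x = pre S l y := by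
  ext z
  simp only [mem_pre]
  constructor
  · rintro ⟨h1, h2⟩
    exact ⟨h1, fun k hk => (h2 k hk).trans (h k hk)⟩
  · rintro ⟨h1, h2⟩
    exact ⟨h1, fun k hk => (h2 k hk).trans (h k hk).symm⟩

theorem rkw_congr {n : ℕ} (S : Finset (Fin n → ℤ)) (b : Bool) (l : Fin n) {x y : Fin n → ℤ}
    (h : ∀ k, k ≤ l → x k = y k) : rkw S b l x = rkw S b l y := by
  unfold rkw
  rw [pre_congr S l (fun k hk => h k hk.le), h l le_rfl]

/-- The prefix of `x` before `l` (zeros after). -/
def pr {n : ℕ} (l : Fin n) (x : Fin n → ℤ) : Fin n → ℤ := fun k => if k < l then x k else 0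

theorem pr_eq {n : ℕ} {l : Fin n} {x y : Fin n → ℤ} : pr l x = pr l y ↔ ∀ k, k < l → x k = y k := by
  constructor
  · intro h k hk
    have := congrFun h k
    simpa [pr, hk] using this
  · intro h
    funext k
    by_cases hk : k < l
    · simp [pr, hk, h k hk]
    · simp [pr, hk]

theorem t_RANK : S_RANK := by
  intro n S b J u hu
  induction J using Finset.induction_on_max with
  | empty => simp
  | insert l J hl ih =>
    have hlJ : l ∉ J := fun h => lt_irrefl _ (hl l h)
    rw [card_insert_of_notMem hlJ, pow_succ']
    set G' := S.filter (fun x => ∀ l ∈ J, rkw S (b l) l x ≤ u) with hG'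
    set G := S.filter (fun x => ∀ l' ∈ insert l J, rkw S (b l') l' x ≤ u) with hG
    have key : (G.card : ℝ) ≤ u * G'.card := by
      have h1 : G.card = ∑ w ∈ G.image (pr l), (G.filter (fun x => pr l x = w)).card :=
        Finset.card_eq_sum_card_fiberwise (fun x hx => Finset.mem_coe.2 (mem_image_of_mem _ hx))
      have hsub : G ⊆ G' := by
        intro x hx
        simp only [hG, hG', mem_filter, mem_insert, forall_eq_or_imp] at hx ⊢
        exact ⟨hx.1, hx.2.2⟩
      have h2 : ∑ w ∈ G.image (pr l), (G'.filter (fun x => pr l x = w)).card ≤ G'.card := by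
        rw [← Finset.card_biUnion]
        · apply card_le_card
          intro x hx
          simp only [mem_biUnion, mem_filter] at hx
          obtain ⟨_, _, h, _⟩ := hx
          exact h
        · intro w _ w' _ hww
          rw [Function.onFun, Finset.disjoint_left]
          intro x hx hx'
          simp only [mem_filter] at hx hx'
          exact hww (hx.2.symm.trans hx'.2)
      have h3 : ∀ w ∈ G.image (pr l), ((G.filter (fun x => pr l x = w)).card : ℝ) ≤
          u * ((G'.filter (fun x => pr l x = w)).card : ℝ) := by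
        intro w hw
        obtain ⟨x0, hx0, rfl⟩ := mem_image.1 hw
        -- the fibre of `G'` is the whole `pre S l x0`
        have e1 : G'.filter (fun x => pr l x = pr l x0) = pre S l x0 := by
          ext z
          rw [mem_filter, mem_pre, pr_eq]
          constructor
          · rintro ⟨h, h'⟩
            exact ⟨(mem_filter.1 h).1, h'⟩
          · rintro ⟨h, h'⟩
            refine ⟨?_, h'⟩
            rw [hG', mem_filter]
            refine ⟨h, fun l' hl' => ?_⟩
            rw [rkw_congr S (b l') l' (fun k hk => h' k (lt_of_le_of_lt hk (hl l' hl')))]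
            exact (mem_filter.1 (hsub hx0)).2 l' hl'
        have hne : (G.filter (fun x => pr l x = pr l x0)).Nonempty := ⟨x0, by simp [hx0]⟩
        obtain ⟨z, hz, hmax⟩ := Finset.exists_max_image _ (fun z => sn (b l) * z l) hne
        rw [mem_filter, pr_eq] at hz
        have hzG := (mem_filter.1 hz.1)
        have hzu : rkw S (b l) l z ≤ u := hzG.2 l (mem_insert_self _ _)
        have hpre : pre S l z = pre S l x0 := pre_congr S l hz.2
        have e2 : G.filter (fun x => pr l x = pr l x0) ⊆
            (pre S l z).filter (fun y => sn (b l) * y l ≤ sn (b l) * z l) := by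
          intro y hy
          rw [mem_filter, hpre, mem_pre]
          refine ⟨⟨(mem_filter.1 (mem_filter.1 hy).1).1, pr_eq.1 (mem_filter.1 hy).2⟩, hmax y hy⟩
        have e3 : (((pre S l z).filter (fun y => sn (b l) * y l ≤ sn (b l) * z l)).card : ℝ) =
            rkw S (b l) l z * ((pre S l z).card : ℝ) := by
          have : ((pre S l z).card : ℝ) ≠ 0 := by
            have : z ∈ pre S l z := by rw [mem_pre]; exact ⟨hzG.1, fun _ _ => rfl⟩
            exact_mod_cast (Finset.card_pos.2 ⟨z, this⟩).ne'
          unfold rkw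
          field_simp
        calc ((G.filter (fun x => pr l x = pr l x0)).card : ℝ) ≤
            (((pre S l z).filter (fun y => sn (b l) * y l ≤ sn (b l) * z l)).card : ℝ) := by
              exact_mod_cast card_le_card e2
          _ = rkw S (b l) l z * ((pre S l z).card : ℝ) := e3
          _ ≤ u * ((pre S l z).card : ℝ) := by gcongr
          _ = _ := by rw [e1, hpre]
      calc (G.card : ℝ) = ∑ w ∈ G.image (pr l), ((G.filter (fun x => pr l x = w)).card : ℝ) := by
            rw [h1]; push_cast; rfl
        _ ≤ ∑ w ∈ G.image (pr l), u * ((G'.filter (fun x => pr l x = w)).card : ℝ) :=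
            Finset.sum_le_sum h3
        _ = u * ((∑ w ∈ G.image (pr l), (G'.filter (fun x => pr l x = w)).card : ℕ) : ℝ) := by
            rw [← Finset.mul_sum]; push_cast; rfl
        _ ≤ u * G'.card := by
            gcongr
    calc (G.card : ℝ) ≤ u * G'.card := key
      _ ≤ u * (u ^ J.card * S.card) := by gcongr
      _ = u * u ^ J.card * S.card := by ring

theorem sn_sq (b : Bool) : sn b * sn b = 1 := by cases b <;> simp [sn]

theorem t_TOP : S_TOP := by
  intro n M hM a S hS hSg hup
  have hSc : (0 : ℝ) < S.card := by exact_mod_cast Finset.card_pos.2 hS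
  -- average the chain inequality
  have h1 : ∑ x ∈ S, ∑ l : Fin n,
      (1 - M * ((W S ((l : ℕ) + 1) x).card : ℝ) / ((W S (l : ℕ) x).card : ℝ)) ≤
      S.card * Real.log ((S.card : ℝ) / (M : ℝ) ^ n) := by
    calc _ ≤ ∑ x ∈ S, Real.log ((S.card : ℝ) / (M : ℝ) ^ n) :=
          Finset.sum_le_sum (fun x hx => chain hM S x hx)
      _ = _ := by simp
  -- each direction
  have h2 : ∀ l : Fin n, ∑ x ∈ S, ((W S ((l : ℕ) + 1) x).card : ℝ) / ((W S (l : ℕ) x).card : ℝ) ≤
      ((S.filter (fun z => sn (a l) * z l = 2 * M - 1)).card : ℝ) := by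
    intro l
    have h3 : ∀ x ∈ S, (W S ((l : ℕ) + 1) x).card ≤
        ((pre S l x).filter (fun z => sn (a l) * z l = 2 * M - 1)).card := by
      intro x hx
      refine Finset.card_le_card_of_injOn (fun z => Function.update z l (sn (a l) * (2 * M - 1)))
        ?_ ?_
      · intro z hz
        have hz' := mem_filter.1 (Finset.mem_coe.1 hz)
        have hzg := mem_grid.1 (hSg hz'.1)
        have htop : sn (a l) * (2 * (M : ℤ) - 1) ∈ box M := by
          rw [mem_box]
          have hM' : (1 : ℤ) ≤ M := by exact_mod_cast hM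
          cases a l
          · simp only [sn, Bool.false_eq_true, if_false]
            exact ⟨⟨by linarith, by linarith⟩, ⟨-M, by ring⟩⟩
          · simp only [sn, if_true]
            exact ⟨⟨by linarith, by linarith⟩, ⟨M - 1, by ring⟩⟩
        rw [Finset.mem_coe, mem_filter, mem_pre]
        refine ⟨⟨hup z hz'.1 _ (update_mem_grid (hSg hz'.1) l htop) ?_, ?_⟩, ?_⟩
        · intro k
          dsimp only
          by_cases hk : k = l
          · subst hk
            rw [Function.update_self, ← mul_assoc, sn_sq, one_mul]
            have := (mem_box.1 (hzg k)).1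
            cases a k
            · simp only [sn, Bool.false_eq_true, if_false]; linarith [this.1]
            · simp only [sn, if_true]; linarith [this.2]
          · rw [Function.update_of_ne hk]
        · intro k hk
          dsimp only
          rw [Function.update_of_ne hk.ne]
          exact hz'.2 k (lt_trans (Fin.lt_def.1 hk) (Nat.lt_succ_self _))
        · dsimp only
          rw [Function.update_self, ← mul_assoc, sn_sq, one_mul]
      · intro z hz z' hz' h
        have hz1 := (mem_filter.1 (Finset.mem_coe.1 hz)).2 l (Nat.lt_succ_self _)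
        have hz2 := (mem_filter.1 (Finset.mem_coe.1 hz')).2 l (Nat.lt_succ_self _)
        funext k
        by_cases hk : k = l
        · subst hk; rw [hz1, hz2]
        · have := congrFun h k
          simpa [Function.update_of_ne hk] using this
    calc ∑ x ∈ S, ((W S ((l : ℕ) + 1) x).card : ℝ) / ((W S (l : ℕ) x).card : ℝ)
        ≤ ∑ x ∈ S, (((pre S l x).filter (fun z => sn (a l) * z l = 2 * M - 1)).card : ℝ) /
          ((pre S l x).card : ℝ) := by
          refine Finset.sum_le_sum (fun x hx => ?_)
          rw [pre_eq_W S l x]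
          have := h3 x hx
          rw [pre_eq_W S l x] at this
          gcongr
      _ = ∑ x ∈ S, ∑ z ∈ (pre S l x).filter (fun z => sn (a l) * z l = 2 * M - 1),
          (1 : ℝ) / ((pre S l z).card : ℝ) := by
          refine Finset.sum_congr rfl (fun x hx => ?_)
          rw [Finset.sum_congr rfl (g := fun _ => (1 : ℝ) / ((pre S l x).card : ℝ))]
          · rw [Finset.sum_const, nsmul_eq_mul, mul_one_div]
          · intro z hz
            rw [pre_congr S l (mem_pre.1 (mem_filter.1 hz).1).2]
      _ = ∑ z ∈ S.filter (fun z => sn (a l) * z l = 2 * M - 1), ∑ x ∈ pre S l z,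
          (1 : ℝ) / ((pre S l z).card : ℝ) := by
          refine Finset.sum_comm' ?_
          intro x z
          simp only [mem_filter, mem_pre]
          constructor
          · rintro ⟨hx, ⟨hz, h⟩, h'⟩
            exact ⟨⟨hx, fun k hk => (h k hk).symm⟩, hz, h'⟩
          · rintro ⟨⟨hx, h⟩, hz, h'⟩
            exact ⟨hx, ⟨hz, fun k hk => (h k hk).symm⟩, h'⟩
      _ = ∑ z ∈ S.filter (fun z => sn (a l) * z l = 2 * M - 1), (1 : ℝ) := by
          refine Finset.sum_congr rfl (fun z hz => ?_)
          have : ((pre S l z).card : ℝ) ≠ 0 := by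
            have : z ∈ pre S l z := by rw [mem_pre]; exact ⟨(mem_filter.1 hz).1, fun _ _ => rfl⟩
            exact_mod_cast (Finset.card_pos.2 ⟨z, this⟩).ne'
          rw [Finset.sum_const, nsmul_eq_mul]
          field_simp
      _ = _ := by simp
  -- combine
  have h4 : S.card * ∑ l : Fin n, (1 - M * ((S.filter
      (fun z => sn (a l) * z l = 2 * M - 1)).card : ℝ) / S.card) ≤
      S.card * Real.log ((S.card : ℝ) / (M : ℝ) ^ n) := by
    refine le_trans ?_ h1
    rw [Finset.sum_comm, Finset.mul_sum]
    refine Finset.sum_le_sum (fun l _ => ?_)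
    have h5 := h2 l
    have e1 : ∑ x ∈ S, (1 - M * ((W S ((l : ℕ) + 1) x).card : ℝ) / ((W S (l : ℕ) x).card : ℝ)) =
        S.card - M * ∑ x ∈ S, ((W S ((l : ℕ) + 1) x).card : ℝ) / ((W S (l : ℕ) x).card : ℝ) := by
      rw [Finset.sum_sub_distrib, Finset.mul_sum]
      simp [mul_div_assoc]
    rw [e1]
    have e2 : (S.card : ℝ) * (1 - M * ((S.filter
      (fun z => sn (a l) * z l = 2 * M - 1)).card : ℝ) / S.card) = S.card - M * ((S.filter
      (fun z => sn (a l) * z l = 2 * M - 1)).card : ℝ) := by
      field_simp
    rw [e2]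
    have hM0 : (0 : ℝ) ≤ M := by positivity
    have := mul_le_mul_of_nonneg_left h5 hM0
    linarith
  exact le_of_mul_le_mul_left h4 hSc

end Pool.Agent.K1H85.ST
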