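import Pool.Agent.K1H85.ST.Parts

/-! # The energy bound for `ζ` (`S_ZE`) -/

set_option autoImplicit false

noncomputable section

namespace Pool.Agent.K1H85.ST

open Pool.Agent.K1H64.ST
open Finset hiding box

theorem clip_mono {U z w : ℝ} (h : z ≤ w) : clip U z ≤ clip U w :=
  min_le_min (max_le_max h le_rfl) le_rfl

theorem clip_lip (U z w : ℝ) : |clip U z - clip U w| ≤ |z - w| := by
  unfold clip
  refine (abs_min_sub_min_le_max _ _ _ _).trans ?_
  refine max_le ?_ (by simp)
  refine (abs_max_sub_max_le_max _ _ _ _).trans ?_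
  simp

theorem clip_sq (U z w : ℝ) : (clip U z - clip U w) ^ 2 ≤ (z - w) * (clip U z - clip U w) := by
  rcases le_total w z with h | h
  · have h1 := clip_mono (U := U) h
    have h2 := clip_lip U z w
    rw [abs_of_nonneg (by linarith), abs_of_nonneg (by linarith)] at h2
    nlinarith
  · have h1 := clip_mono (U := U) h
    have h2 := clip_lip U z w
    rw [abs_of_nonpos (by linarith), abs_of_nonpos (by linarith)] at h2
    nlinarith

theorem clip_ge {U : ℝ} (hU : 0 ≤ U) (z : ℝ) : U ≤ clip U z :=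
  le_min (le_max_right _ _) (by linarith)

theorem clip_le (U z : ℝ) : clip U z ≤ 2 * U := min_le_right _ _

theorem clip_eq {U z : ℝ} (hU : 0 ≤ U) (h : z ≤ U) : clip U z = U := by
  unfold clip
  rw [max_eq_right h, min_eq_left (by linarith)]

theorem clip_abs {U : ℝ} (hU : 0 ≤ U) (z w : ℝ) : |clip U z - clip U w| ≤ U := by
  rw [abs_le]
  have h1 := clip_ge hU z
  have h2 := clip_ge hU w
  have h3 := clip_le U z
  have h4 := clip_le U w
  constructor <;> linarith

theorem clip_exp {U : ℝ} (hU : 0 ≤ U) (z : ℝ) :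
    clip U z - U ≤ U * Real.exp (-U / 4) * Real.exp (z / 4) := by
  rw [mul_assoc, ← Real.exp_add]
  rcases le_total z U with h | h
  · rw [clip_eq hU h]
    have := Real.exp_pos (-U / 4 + z / 4)
    nlinarith
  · have h1 : 1 ≤ Real.exp (-U / 4 + z / 4) := by
      apply Real.one_le_exp; linarith
    have h3 := clip_le U z
    nlinarith

theorem sum_cells {n : ℕ} {A : Finset (Cube n)} (P : Pot n A) (M : ℕ) (F : (Fin n → ℤ) → ℝ) :
    ∑ x ∈ grid n M, F x = ∑ a ∈ A, ∑ x ∈ P.cell M a, F x := by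
  unfold Pot.cell
  exact (Finset.sum_fiberwise_of_maps_to (fun x _ => P.mem x) F).symm

theorem cell_nonempty {n : ℕ} {A : Finset (Cube n)} (P : Pot n A) {M : ℕ} (hM : 1 ≤ M)
    (hn : 2 ≤ n) (hB : P.Bal M (1 / (2 * n))) {a : Cube n} (ha : a ∈ A) :
    (P.cell M a).Nonempty := by
  rw [← Finset.card_pos]
  have h1 := (hB a ha).1
  have h2 : (0 : ℝ) < (M : ℝ) ^ n := by
    have : (0 : ℝ) < M := by exact_mod_cast hM
    positivity
  have hn' : (2 : ℝ) ≤ n := by exact_mod_cast hn
  have h3 : (1 : ℝ) / (2 * n) ≤ 1 / 4 := by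
    apply one_div_le_one_div_of_le <;> linarith
  have h4 : (0 : ℝ) < ((P.cell M a).card : ℝ) := by nlinarith
  exact_mod_cast h4

theorem cell_card_le {n : ℕ} {A : Finset (Cube n)} (P : Pot n A) {M : ℕ} (hM : 1 ≤ M)
    (hn : 2 ≤ n) (hB : P.Bal M (1 / (2 * n))) {a : Cube n} (ha : a ∈ A) :
    ((P.cell M a).card : ℝ) ≤ 5 / 2 * (M : ℝ) ^ n := by
  have h1 := (hB a ha).2
  have h2 : (0 : ℝ) < (M : ℝ) ^ n := by
    have : (0 : ℝ) < M := by exact_mod_cast hM
    positivity
  have hn' : (2 : ℝ) ≤ n := by exact_mod_cast hn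
  have h3 : (1 : ℝ) / (2 * n) ≤ 1 / 4 := by
    apply one_div_le_one_div_of_le <;> linarith
  nlinarith

theorem zeta_le {n : ℕ} {A : Finset (Cube n)} (P : Pot n A) {M : ℕ} (hM : 1 ≤ M)
    (hne : ∀ a ∈ A, (P.cell M a).Nonempty) {a : Cube n} (ha : a ∈ A) : P.zeta M a ≤ 2 * n := by
  have hM0 : (0 : ℝ) < M := by exact_mod_cast hM
  have h1 : ∀ b ∈ A, P.c b - P.c a ≤ 4 * n * M := by
    intro b hb
    by_cases hab : a = b
    · subst hab
      simp; positivity
    obtain ⟨x, hx⟩ := hne b hb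
    rw [Pot.cell, mem_filter] at hx
    have h2 := P.best x a ha (by rw [hx.2]; exact hab)
    rw [hx.2] at h2
    have h3 : dot b x - dot a x ≤ 4 * n * M := by
      unfold dot
      rw [← Finset.sum_sub_distrib]
      calc ∑ l, (sn (b l) * x l - sn (a l) * x l) ≤ ∑ l : Fin n, (4 * (M : ℤ)) := by
            refine Finset.sum_le_sum (fun l _ => ?_)
            have h4 := (mem_box.1 (mem_grid.1 hx.1 l)).1
            cases a l <;> cases b l <;> simp [sn] <;> linarith
        _ = 4 * n * M := by simp; ring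
    have h4 : (dot b x : ℝ) - dot a x ≤ 4 * n * M := by exact_mod_cast h3
    linarith
  have h2 : ∑ b ∈ A, (P.c b - P.c a) ≤ ∑ b ∈ A, (4 * n * M : ℝ) := Finset.sum_le_sum h1
  rw [Finset.sum_sub_distrib, P.norm] at h2
  simp only [Finset.sum_const, nsmul_eq_mul] at h2
  have hA : (0 : ℝ) < A.card := by exact_mod_cast Finset.card_pos.2 ⟨a, ha⟩
  have h3 : - P.c a ≤ 4 * n * M := by
    have : (A.card : ℝ) * (- P.c a) ≤ A.card * (4 * n * M) := by linarith
    exact le_of_mul_le_mul_left this hA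
  unfold Pot.zeta
  rw [div_le_iff₀ (by positivity)]
  linarith

/-- The faces: `∑_i (S0 - M E_i) ≤ S0`. -/
theorem faces {n : ℕ} {A : Finset (Cube n)} (P : Pot n A) {M : ℕ} (hM : 1 ≤ M)
    (hn : 2 ≤ n) (hB : P.Bal M (1 / (2 * n))) (χ : Cube n → ℝ) (hχ : ∀ a, 0 ≤ χ a) :
    n * ∑ x ∈ grid n M, χ (P.T x) - M * ∑ i : Fin n,
      ∑ x ∈ (grid n M).filter (fun x : Fin n → ℤ => |x i| = 2 * (M : ℤ) - 1), χ (P.T x) ≤
      ∑ x ∈ grid n M, χ (P.T x) := by
  have hM0 : (0 : ℝ) < M := by exact_mod_cast hM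
  have hcellT : ∀ a, ∀ x ∈ P.cell M a, P.T x = a := by
    intro a x hx
    rw [Pot.cell, mem_filter] at hx
    exact hx.2
  have hS : ∑ x ∈ grid n M, χ (P.T x) = ∑ a ∈ A, χ a * ((P.cell M a).card : ℝ) := by
    rw [sum_cells P M]
    refine Finset.sum_congr rfl (fun a _ => ?_)
    rw [Finset.sum_congr rfl (fun x hx => by rw [hcellT a x hx] : ∀ x ∈ P.cell M a, χ (P.T x) = χ a)]
    rw [Finset.sum_const, nsmul_eq_mul, mul_comm]
  have hE : ∀ i : Fin n, ∑ a ∈ A, χ a *
      (((P.cell M a).filter (fun z => sn (a i) * z i = 2 * M - 1)).card : ℝ) ≤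
      ∑ x ∈ (grid n M).filter (fun x : Fin n → ℤ => |x i| = 2 * (M : ℤ) - 1), χ (P.T x) := by
    intro i
    rw [Finset.sum_filter, sum_cells P M]
    refine Finset.sum_le_sum (fun a _ => ?_)
    calc χ a * (((P.cell M a).filter (fun z => sn (a i) * z i = 2 * M - 1)).card : ℝ)
        = ∑ x ∈ (P.cell M a).filter (fun z => sn (a i) * z i = 2 * M - 1), χ a := by
          rw [Finset.sum_const, nsmul_eq_mul, mul_comm]
      _ = ∑ x ∈ P.cell M a, (if sn (a i) * x i = 2 * M - 1 then χ a else 0) := by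
          rw [Finset.sum_filter]
      _ ≤ ∑ x ∈ P.cell M a, (if |x i| = 2 * (M : ℤ) - 1 then χ (P.T x) else 0) := by
          refine Finset.sum_le_sum (fun x hx => ?_)
          rw [hcellT a x hx]
          by_cases h : sn (a i) * x i = 2 * M - 1
          · have h2 : |x i| = 2 * (M : ℤ) - 1 := by
              have hM' : (1 : ℤ) ≤ M := by exact_mod_cast hM
              cases hai : a i
              · rw [hai] at h
                simp only [sn, Bool.false_eq_true, if_false] at h
                rw [abs_of_nonpos (by linarith)]; linarith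
              · rw [hai] at h
                simp only [sn, if_true] at h
                rw [abs_of_nonneg (by linarith)]; linarith
            rw [if_pos h, if_pos h2]
          · rw [if_neg h]
            split_ifs
            · exact hχ a
            · exact le_rfl
  have htop : ∀ a ∈ A, n * ((P.cell M a).card : ℝ) - M * ∑ i : Fin n,
      (((P.cell M a).filter (fun z => sn (a i) * z i = 2 * M - 1)).card : ℝ) ≤
      ((P.cell M a).card : ℝ) := by
    intro a ha
    have hne := cell_nonempty P hM hn hB ha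
    have hc : (0 : ℝ) < ((P.cell M a).card : ℝ) := by exact_mod_cast Finset.card_pos.2 hne
    have h1 := t_TOP n M hM a (P.cell M a) hne (Finset.filter_subset _ _)
      (fun x hx y hy h => cell_up P ha hx hy h)
    have h2 : Real.log (((P.cell M a).card : ℝ) / (M : ℝ) ^ n) ≤ 1 := by
      rw [Real.log_le_iff_le_exp (by positivity), div_le_iff₀ (by positivity)]
      have h3 := cell_card_le P hM hn hB ha
      have he := Real.exp_one_gt_d9
      have hMn : (0 : ℝ) < (M : ℝ) ^ n := by positivity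
      nlinarith
    have h4 := h1.trans h2
    have h5 : ((P.cell M a).card : ℝ) * ∑ l : Fin n, (1 - M * (((P.cell M a).filter
        (fun z => sn (a l) * z l = 2 * M - 1)).card : ℝ) / ((P.cell M a).card : ℝ)) =
        n * ((P.cell M a).card : ℝ) - M * ∑ i : Fin n,
      (((P.cell M a).filter (fun z => sn (a i) * z i = 2 * M - 1)).card : ℝ) := by
      rw [Finset.mul_sum, Finset.mul_sum]
      have : (n : ℝ) * ((P.cell M a).card : ℝ) = ∑ l : Fin n, ((P.cell M a).card : ℝ) := by simp
      rw [this, ← Finset.sum_sub_distrib]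
      refine Finset.sum_congr rfl (fun l _ => ?_)
      field_simp
    rw [← h5]
    calc _ ≤ ((P.cell M a).card : ℝ) * 1 := mul_le_mul_of_nonneg_left h4 hc.le
      _ = _ := mul_one _
  have h1 : ∑ a ∈ A, χ a * (n * ((P.cell M a).card : ℝ) - M * ∑ i : Fin n,
      (((P.cell M a).filter (fun z => sn (a i) * z i = 2 * M - 1)).card : ℝ)) ≤
      ∑ a ∈ A, χ a * ((P.cell M a).card : ℝ) :=
    Finset.sum_le_sum (fun a ha => mul_le_mul_of_nonneg_left (htop a ha) (hχ a))
  have h2 : ∑ a ∈ A, χ a * (n * ((P.cell M a).card : ℝ) - M * ∑ i : Fin n,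
      (((P.cell M a).filter (fun z => sn (a i) * z i = 2 * M - 1)).card : ℝ)) =
      n * ∑ a ∈ A, χ a * ((P.cell M a).card : ℝ) - M * ∑ i : Fin n, ∑ a ∈ A, χ a *
      (((P.cell M a).filter (fun z => sn (a i) * z i = 2 * M - 1)).card : ℝ) := by
    rw [Finset.sum_comm, Finset.mul_sum, Finset.mul_sum, ← Finset.sum_sub_distrib]
    refine Finset.sum_congr rfl (fun a _ => ?_)
    rw [← Finset.mul_sum]
    ring
  rw [h2] at h1
  have h3 : M * ∑ i : Fin n, ∑ a ∈ A, χ a *
      (((P.cell M a).filter (fun z => sn (a i) * z i = 2 * M - 1)).card : ℝ) ≤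
      M * ∑ i : Fin n,
      ∑ x ∈ (grid n M).filter (fun x : Fin n → ℤ => |x i| = 2 * (M : ℤ) - 1), χ (P.T x) :=
    mul_le_mul_of_nonneg_left (Finset.sum_le_sum (fun i _ => hE i)) hM0.le
  rw [hS]
  linarith

open Classical in
/-- The energy over full pairs. -/
theorem energy {n : ℕ} {A : Finset (Cube n)} (P : Pot n A) {M : ℕ} (hM : 1 ≤ M)
    (hn : 2 ≤ n) (hB : P.Bal M (1 / (2 * n))) {U : ℝ} (hU : 0 ≤ U) :
    M * ∑ p ∈ grid n M, ∑ a ∈ A, (if P.Full M p a then
      (clip U (P.zeta M a) - clip U (P.zeta M (P.T p))) ^ 2 else 0) ≤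
    4 * ∑ x ∈ grid n M, (clip U (P.zeta M (P.T x)) - U) +
    3 * U * ∑ p ∈ grid n M, ∑ a ∈ A, (if P.Full M p a then
      (hammingDist a (P.T p) : ℝ) ^ 2 else 0) +
    2 * M * U * (((P.JE M).filter (fun t : (Fin n → ℤ) × Fin n × Bool =>
    ¬ (P.Full M t.1 (P.T (nb t.1 t.2.1 t.2.2))))).card : ℝ) := by
  have hM0 : (0 : ℝ) < M := by exact_mod_cast hM
  set g : Cube n → ℝ := fun a => clip U (P.zeta M a) with hg
  set h : (Fin n → ℤ) → ℝ := fun x => g (P.T x) - U with hh
  set S0 := ∑ x ∈ grid n M, h x with hS0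
  set E : Fin n → ℝ := fun i =>
    ∑ x ∈ (grid n M).filter (fun x : Fin n → ℤ => |x i| = 2 * (M : ℤ) - 1), h x with hE
  set Φ : (Fin n → ℤ) × Fin n × Bool → ℝ := fun t =>
    (((sn t.2.2 * t.1 t.2.1 : ℤ) : ℝ) + 1) * (h (nb t.1 t.2.1 t.2.2) - h t.1) with hΦ
  have h1 : ∑ t ∈ P.JE M, Φ t = 4 * (M * ∑ i, E i - n * S0) := by
    rw [JE_sum_gen P M Φ]
    · have h2 : ∀ (i : Fin n) (b : Bool), ∑ x ∈ grid n M,
          (if nb x i b ∈ grid n M then Φ (x, i, b) else 0) = 2 * M * E i - 2 * S0 := by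
        intro i b
        exact grid_parts hM i b h
      simp only [h2]
      simp only [Finset.sum_const, Finset.card_univ, Fintype.card_bool, Finset.sum_sub_distrib,
        Fintype.card_fin, nsmul_eq_mul, ← Finset.mul_sum]
      push_cast
      ring
    · intro x i b hT
      simp only [hΦ, hh, hT]
      ring
  have h2 : n * S0 - M * ∑ i, E i ≤ S0 := by
    have := faces P hM hn hB (fun a => g a - U) (fun a => by
      have := clip_ge hU (P.zeta M a)
      simp only [hg]
      linarith)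
    exact this
  rw [JE_full] at h1
  have h3 : ∀ p ∈ grid n M, ∀ a ∈ A, (if P.Full M p a then
      ∑ i ∈ univ.filter (fun i => a i ≠ P.T p i), Φ (p, i, a i) else 0) ≤
      - M * (if P.Full M p a then (g a - g (P.T p)) ^ 2 else 0) +
      3 * U * (if P.Full M p a then (hammingDist a (P.T p) : ℝ) ^ 2 else 0) := by
    intro p _ a ha
    by_cases hF : P.Full M p a
    · rw [if_pos hF, if_pos hF, if_pos hF]
      obtain ⟨η, hη0, hη4, hη⟩ := full_pair P ha hF
      have h4 : ∑ i ∈ univ.filter (fun i => a i ≠ P.T p i), Φ (p, i, a i) =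
          (∑ i ∈ univ.filter (fun i => a i ≠ P.T p i), (((sn (a i) * p i : ℤ) : ℝ) + 1)) *
            (g a - g (P.T p)) := by
        rw [Finset.sum_mul]
        refine Finset.sum_congr rfl (fun i hi => ?_)
        rw [mem_filter] at hi
        simp only [hΦ, hh, (hF.2 i hi.2).2]
        ring
      rw [h4, hη]
      have h5 := clip_sq U (P.zeta M a) (P.zeta M (P.T p))
      have h6 := clip_abs hU (P.zeta M a) (P.zeta M (P.T p))
      have e1 : P.c a - P.c (P.T p) = - (2 * M) * (P.zeta M a - P.zeta M (P.T p)) := by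
        unfold Pot.zeta
        field_simp
        ring
      have hk : (1 : ℝ) ≤ (hammingDist a (P.T p) : ℝ) := by
        have : 0 < hammingDist a (P.T p) := hammingDist_pos.2 hF.1
        exact_mod_cast this
      set k : ℝ := (hammingDist a (P.T p) : ℝ)
      set Δ := g a - g (P.T p) with hΔ
      have h5' : Δ ^ 2 ≤ (P.zeta M a - P.zeta M (P.T p)) * Δ := h5
      have h6' : |Δ| ≤ U := h6
      have h7 : (k - η / 2) * Δ ≤ 3 * U * k ^ 2 := by
        calc (k - η / 2) * Δ ≤ |(k - η / 2) * Δ| := le_abs_self _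
          _ = |k - η / 2| * |Δ| := abs_mul _ _
          _ ≤ (k + 2) * U := by
              apply mul_le_mul _ h6' (abs_nonneg _) (by linarith)
              rw [abs_le]; constructor <;> linarith
          _ ≤ 3 * U * k ^ 2 := by
              have h8 : k + 2 ≤ 3 * k ^ 2 := by nlinarith
              calc (k + 2) * U ≤ 3 * k ^ 2 * U := mul_le_mul_of_nonneg_right h8 hU
                _ = _ := by ring
      rw [e1]
      nlinarith
    · rw [if_neg hF, if_neg hF, if_neg hF]
      simp
  have h4 : ∑ p ∈ grid n M, ∑ a ∈ A, (if P.Full M p a then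
      ∑ i ∈ univ.filter (fun i => a i ≠ P.T p i), Φ (p, i, a i) else 0) ≤
      - M * ∑ p ∈ grid n M, ∑ a ∈ A, (if P.Full M p a then (g a - g (P.T p)) ^ 2 else 0) +
      3 * U * ∑ p ∈ grid n M, ∑ a ∈ A,
        (if P.Full M p a then (hammingDist a (P.T p) : ℝ) ^ 2 else 0) := by
    rw [Finset.mul_sum, Finset.mul_sum, ← Finset.sum_add_distrib]
    refine Finset.sum_le_sum (fun p hp => ?_)
    rw [Finset.mul_sum, Finset.mul_sum, ← Finset.sum_add_distrib]
    exact Finset.sum_le_sum (fun a ha => h3 p hp a ha)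
  have h5 : ∑ t ∈ (P.JE M).filter (fun t => ¬ P.Full M t.1 (P.T (nb t.1 t.2.1 t.2.2))), Φ t ≤
      2 * M * U * (((P.JE M).filter (fun t : (Fin n → ℤ) × Fin n × Bool =>
    ¬ (P.Full M t.1 (P.T (nb t.1 t.2.1 t.2.2))))).card : ℝ) := by
    calc _ ≤ ∑ t ∈ (P.JE M).filter (fun t => ¬ P.Full M t.1 (P.T (nb t.1 t.2.1 t.2.2))),
          (2 * M * U) := by
          refine Finset.sum_le_sum (fun t ht => ?_)
          obtain ⟨x, i, b⟩ := t
          rw [mem_filter, mem_JE] at ht
          have hx := (mem_box.1 (mem_grid.1 ht.1.1 i)).1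
          have h6 := clip_abs hU (P.zeta M (P.T (nb x i b))) (P.zeta M (P.T x))
          have h7 : |((sn b * x i : ℤ) : ℝ) + 1| ≤ 2 * M := by
            have h8 : |sn b * x i + 1| ≤ 2 * (M : ℤ) := by
              rw [abs_le]
              cases b <;> simp [sn] <;> constructor <;> linarith
            exact_mod_cast h8
          calc Φ (x, i, b) ≤ |Φ (x, i, b)| := le_abs_self _
            _ = |((sn b * x i : ℤ) : ℝ) + 1| * |h (nb x i b) - h x| := by
                simp only [hΦ]; rw [abs_mul]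
            _ ≤ 2 * M * U := by
                apply mul_le_mul h7 _ (abs_nonneg _) (by positivity)
                have : h (nb x i b) - h x = g (P.T (nb x i b)) - g (P.T x) := by
                  simp only [hh]; ring
                rw [this]
                exact h6
      _ = _ := by rw [Finset.sum_const, nsmul_eq_mul]; ring
  linarith

open Classical in
/-- The variation over the sign flips. -/
theorem variation {n : ℕ} {A : Finset (Cube n)} (P : Pot n A) {M : ℕ} {U : ℝ} (hU : 0 ≤ U) :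
    ∑ i : Fin n, ∑ x ∈ grid n M,
      |clip U (P.zeta M (P.T x)) - clip U (P.zeta M (P.T (flipS {i} x)))| ≤
    2 * M * (Real.sqrt (∑ p ∈ grid n M, ∑ a ∈ A, (if P.Full M p a then
      (hammingDist a (P.T p) : ℝ) ^ 2 else 0)) *
      Real.sqrt (∑ p ∈ grid n M, ∑ a ∈ A, (if P.Full M p a then
      (clip U (P.zeta M a) - clip U (P.zeta M (P.T p))) ^ 2 else 0)) +
      U * (((P.JE M).filter (fun t : (Fin n → ℤ) × Fin n × Bool =>
    ¬ (P.Full M t.1 (P.T (nb t.1 t.2.1 t.2.2))))).card : ℝ)) := by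
  set h : (Fin n → ℤ) → ℝ := fun x => clip U (P.zeta M (P.T x)) with hh
  set Ψ : (Fin n → ℤ) × Fin n × Bool → ℝ := fun t => |h (nb t.1 t.2.1 t.2.2) - h t.1| with hΨ
  have h1 : ∑ i : Fin n, ∑ x ∈ grid n M, |h x - h (flipS {i} x)| ≤
      2 * M * ∑ t ∈ P.JE M, Ψ t := by
    rw [JE_sum_gen P M Ψ (by
      intro x i b hT
      simp only [hΨ, hh, hT]
      simp), Finset.mul_sum]
    refine Finset.sum_le_sum (fun i _ => ?_)
    refine (flip_le i h).trans ?_
    rw [Fintype.sum_bool, mul_add]
    have : (0 : ℝ) ≤ 2 * M * ∑ x ∈ grid n M,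
        (if nb x i false ∈ grid n M then Ψ (x, i, false) else 0) := by
      apply mul_nonneg (by positivity)
      refine Finset.sum_nonneg (fun x _ => ?_)
      split_ifs
      · exact abs_nonneg _
      · exact le_rfl
    simp only [hΨ] at this ⊢
    linarith
  refine h1.trans ?_
  refine mul_le_mul_of_nonneg_left ?_ (by positivity)
  rw [JE_full]
  refine add_le_add ?_ ?_
  · have h2 : ∀ p ∈ grid n M, ∀ a ∈ A, (if P.Full M p a then
        ∑ i ∈ univ.filter (fun i => a i ≠ P.T p i), Ψ (p, i, a i) else 0) =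
        (if P.Full M p a then (hammingDist a (P.T p) : ℝ) else 0) *
        (if P.Full M p a then |clip U (P.zeta M a) - clip U (P.zeta M (P.T p))| else 0) := by
      intro p _ a _
      by_cases hF : P.Full M p a
      · rw [if_pos hF, if_pos hF, if_pos hF]
        rw [Finset.sum_congr rfl (g := fun _ => |clip U (P.zeta M a) - clip U (P.zeta M (P.T p))|)]
        · rw [Finset.sum_const, nsmul_eq_mul]
          rfl
        · intro i hi
          rw [mem_filter] at hi
          simp only [hΨ, hh, (hF.2 i hi.2).2]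
      · rw [if_neg hF, if_neg hF, if_neg hF, mul_zero]
    rw [Finset.sum_congr rfl (fun p hp => Finset.sum_congr rfl (fun a ha => h2 p hp a ha))]
    rw [← Finset.sum_product', ← Finset.sum_product', ← Finset.sum_product']
    refine (Real.sum_mul_le_sqrt_mul_sqrt _ _ _).trans (le_of_eq ?_)
    congr 2
    · refine Finset.sum_congr rfl (fun x _ => ?_)
      split_ifs <;> simp
    · refine Finset.sum_congr rfl (fun x _ => ?_)
      split_ifs <;> simp
  · calc _ ≤ ∑ t ∈ (P.JE M).filter (fun t => ¬ P.Full M t.1 (P.T (nb t.1 t.2.1 t.2.2))), U := by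
          refine Finset.sum_le_sum (fun t _ => ?_)
          exact clip_abs hU _ _
      _ = _ := by rw [Finset.sum_const, nsmul_eq_mul]; ring

theorem sqrt_add_le' {a b : ℝ} (ha : 0 ≤ a) (hb : 0 ≤ b) :
    Real.sqrt (a + b) ≤ Real.sqrt a + Real.sqrt b := by
  apply Real.sqrt_le_iff.2
  refine ⟨by positivity, ?_⟩
  have h1 := Real.sq_sqrt ha
  have h2 := Real.sq_sqrt hb
  have h3 : 0 ≤ Real.sqrt a * Real.sqrt b := by positivity
  nlinarith

/-- The numerical part of the last step. -/
theorem num_sqrt {C1 C2 U K1 L X n M ε : ℝ} (hC1 : 1 ≤ C1) (hC2 : 0 < C2) (hn : 2 ≤ n)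
    (hM0 : 0 < M) (hU : 1 ≤ U) (hUn : U ≤ 2 * n) (hK1 : 0 ≤ K1) (hL : L = C2 * n * (2 * n) * K1)
    (hX : 0 < X) (hε : 0 < ε) (hMc : 4 * L / ε ^ 2 ≤ M) :
    Real.sqrt ((C2 * n * X) * ((8 * C1 * (U * Real.exp (-U / 4)) + U * K1 / M) * X)) ≤
      X * (8 * Real.sqrt (C1 * C2) * Real.sqrt n * Real.exp (-U / 16) + ε / 2) := by
  have hL0 : 0 ≤ L := by rw [hL]; positivity
  have hexp : U * Real.exp (-U / 4) ≤ 8 * Real.exp (-U / 8) := by
    have h1 : U ≤ 8 * Real.exp (U / 8) := by
      have := Real.add_one_le_exp (U / 8)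
      linarith
    have h2 : Real.exp (-U / 8) = Real.exp (U / 8) * Real.exp (-U / 4) := by
      rw [← Real.exp_add]; congr 1; ring
    rw [h2]
    have := Real.exp_pos (-U / 4)
    nlinarith
  calc Real.sqrt ((C2 * n * X) * ((8 * C1 * (U * Real.exp (-U / 4)) + U * K1 / M) * X))
      ≤ Real.sqrt ((64 * (C1 * C2) * n * Real.exp (-U / 8) + L / M) * X ^ 2) := by
        apply Real.sqrt_le_sqrt
        have h1 : C2 * n * (U * K1) ≤ L := by
          rw [hL]
          calc C2 * n * (U * K1) ≤ C2 * n * ((2 * n) * K1) := by gcongr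
            _ = _ := by ring
        have h2 : C2 * n * (U * K1 / M) ≤ L / M := by
          rw [← mul_div_assoc]
          gcongr
        have h3 : C2 * n * (8 * C1 * (U * Real.exp (-U / 4))) ≤
            64 * (C1 * C2) * n * Real.exp (-U / 8) := by
          calc C2 * n * (8 * C1 * (U * Real.exp (-U / 4))) ≤
              C2 * n * (8 * C1 * (8 * Real.exp (-U / 8))) := by gcongr
            _ = _ := by ring
        calc _ = (C2 * n * (8 * C1 * (U * Real.exp (-U / 4))) + C2 * n * (U * K1 / M)) * X ^ 2 := by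
              ring
          _ ≤ _ := by gcongr
    _ = Real.sqrt (64 * (C1 * C2) * n * Real.exp (-U / 8) + L / M) * X := by
        rw [Real.sqrt_mul (by positivity), Real.sqrt_sq hX.le]
    _ ≤ (Real.sqrt (64 * (C1 * C2) * n * Real.exp (-U / 8)) + Real.sqrt (L / M)) * X := by
        gcongr
        exact sqrt_add_le' (by positivity) (by positivity)
    _ ≤ (8 * Real.sqrt (C1 * C2) * Real.sqrt n * Real.exp (-U / 16) + ε / 2) * X := by
        gcongr
        · apply le_of_eq
          have h64 : Real.sqrt 64 = 8 := by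
            rw [show (64 : ℝ) = 8 ^ 2 by norm_num]
            exact Real.sqrt_sq (by norm_num)
          have hE : Real.exp (-U / 8) = Real.exp (-U / 16) ^ 2 := by
            rw [← Real.exp_nat_mul]; congr 1; push_cast; ring
          rw [Real.sqrt_mul (by positivity), Real.sqrt_mul (by positivity),
            Real.sqrt_mul (by positivity), h64, hE, Real.sqrt_sq (Real.exp_pos _).le]
        · apply Real.sqrt_le_iff.2
          refine ⟨by positivity, ?_⟩
          rw [div_le_iff₀ hM0]
          rw [div_le_iff₀ (by positivity)] at hMc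
          nlinarith
    _ = _ := by ring

theorem t_ZE (hN : S_NF) (hS : S_STR2) (hT : S_TAIL) : S_ZE := by
  classical
  obtain ⟨C1, hC1, hT⟩ := hT
  obtain ⟨C2, hC2, hS⟩ := hS
  refine ⟨8 * Real.sqrt (C1 * C2), by positivity, fun n hn A hA ε hε => ?_⟩
  obtain ⟨M1, hM1⟩ := hS n hn A hA
  set K0 : ℝ := 2 * n * (n * (A.card : ℝ) ^ 2 + (A.card : ℝ) ^ 3) with hK0
  set K1 : ℝ := 3 * C2 * n + K0 with hK1
  set L : ℝ := C2 * n * (2 * n) * K1 with hL
  have hn' : (2 : ℝ) ≤ n := by exact_mod_cast hn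
  have hK00 : 0 ≤ K0 := by positivity
  have hK10 : 0 ≤ K1 := by positivity
  have hL0 : 0 ≤ L := by positivity
  refine ⟨M1 + ⌈C1 * n⌉₊ + ⌈4 * L / ε ^ 2⌉₊ + ⌈2 * n * K0 / ε⌉₊ + 1, fun M hM P hB U hU => ?_⟩
  have hMa : M1 ≤ M := by omega
  have hMb : C1 * n ≤ M := by
    have : ⌈C1 * n⌉₊ ≤ M := by omega
    exact (Nat.le_ceil _).trans (by exact_mod_cast this)
  have hMc : 4 * L / ε ^ 2 ≤ M := by
    have : ⌈4 * L / ε ^ 2⌉₊ ≤ M := by omega
    exact (Nat.le_ceil _).trans (by exact_mod_cast this)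
  have hMd : 2 * n * K0 / ε ≤ M := by
    have : ⌈2 * n * K0 / ε⌉₊ ≤ M := by omega
    exact (Nat.le_ceil _).trans (by exact_mod_cast this)
  have hMe : 1 ≤ M := by omega
  have hM0 : (0 : ℝ) < M := by exact_mod_cast hMe
  have hU0 : 0 ≤ U := by linarith
  have hne : ∀ a ∈ A, (P.cell M a).Nonempty := fun a ha => cell_nonempty P hMe hn hB ha
  by_cases hUn : 2 * n < U
  · -- everything is clipped
    have h1 : ∀ x, clip U (P.zeta M (P.T x)) = U := by
      intro x
      apply clip_eq hU0
      have := zeta_le P hMe hne (P.mem x)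
      linarith
    have h2 : ∑ i : Fin n, ∑ x ∈ grid n M,
      |clip U (P.zeta M (P.T x)) - clip U (P.zeta M (P.T (flipS {i} x)))| = 0 := by
      refine Finset.sum_eq_zero (fun i _ => Finset.sum_eq_zero (fun x _ => ?_))
      rw [h1, h1]; simp
    rw [h2]
    positivity
  · push Not at hUn
    set X : ℝ := (2 * M) ^ (n - 1) with hX
    have hX0 : 0 < X := by positivity
    have eX : (2 * (M : ℝ)) ^ n = 2 * M * X := by
      rw [hX, ← pow_succ']
      congr 1; omega
    have eX2 : (2 * (M : ℝ)) ^ (n - 2) * (2 * M) = X := by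
      rw [hX, ← pow_succ]
      congr 1; omega
    have hv := variation (A := A) P (M := M) (U := U) hU0
    have he := energy P hMe hn hB hU0
    set Q := ∑ p ∈ grid n M, ∑ a ∈ A, (if P.Full M p a then
      (clip U (P.zeta M a) - clip U (P.zeta M (P.T p))) ^ 2 else 0) with hQ
    set B2 := ∑ p ∈ grid n M, ∑ a ∈ A, (if P.Full M p a then
      (hammingDist a (P.T p) : ℝ) ^ 2 else 0) with hB2
    set F := (((P.JE M).filter (fun t : (Fin n → ℤ) × Fin n × Bool =>
    ¬ (P.Full M t.1 (P.T (nb t.1 t.2.1 t.2.2))))).card : ℝ) with hF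
    have hB2le : B2 ≤ C2 * n * X := hM1 M hMa P hB
    have hFle : F ≤ K0 * (2 * M) ^ (n - 2) := by
      have := hN n hn A M hMe P
      convert this using 1
    have hF0 : 0 ≤ F := by positivity
    have hS0 : ∑ x ∈ grid n M, (clip U (P.zeta M (P.T x)) - U) ≤
        U * Real.exp (-U / 4) * (C1 * (2 * M * X)) := by
      have h1 := (hT n (by omega) A hA M hMb P hB).2
      rw [eX] at h1
      calc ∑ x ∈ grid n M, (clip U (P.zeta M (P.T x)) - U) ≤
          ∑ x ∈ grid n M, U * Real.exp (-U / 4) * Real.exp (P.zeta M (P.T x) / 4) :=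
            Finset.sum_le_sum (fun x _ => clip_exp hU0 _)
        _ = U * Real.exp (-U / 4) * ∑ x ∈ grid n M, Real.exp (P.zeta M (P.T x) / 4) := by
            rw [Finset.mul_sum]
        _ ≤ _ := by gcongr
    -- the energy
    have hMQ : M * Q ≤ M * ((8 * C1 * (U * Real.exp (-U / 4)) + U * K1 / M) * X) := by
      have e1 : M * ((8 * C1 * (U * Real.exp (-U / 4)) + U * K1 / M) * X) =
          4 * (U * Real.exp (-U / 4) * (C1 * (2 * M * X))) + U * K1 * X := by
        field_simp
        ring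
      rw [e1]
      have h2 : 3 * U * B2 ≤ 3 * U * (C2 * n * X) := by gcongr
      have h3 : 2 * M * U * F ≤ U * K0 * X := by
        calc 2 * M * U * F ≤ 2 * M * U * (K0 * (2 * M) ^ (n - 2)) := by gcongr
          _ = U * K0 * ((2 * M) ^ (n - 2) * (2 * M)) := by ring
          _ = U * K0 * X := by rw [eX2]
      have h4 : U * K1 * X = 3 * U * (C2 * n * X) + U * K0 * X := by rw [hK1]; ring
      rw [h4]
      linarith
    have hQle := le_of_mul_le_mul_left hMQ hM0
    have hprod : Real.sqrt B2 * Real.sqrt Q ≤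
        X * (8 * Real.sqrt (C1 * C2) * Real.sqrt n * Real.exp (-U / 16) + ε / 2) := by
      have hB20 : 0 ≤ B2 := Finset.sum_nonneg (fun p _ => Finset.sum_nonneg (fun a _ => by
        split_ifs <;> positivity))
      have hQ0 : 0 ≤ Q := Finset.sum_nonneg (fun p _ => Finset.sum_nonneg (fun a _ => by
        split_ifs <;> positivity))
      rw [← Real.sqrt_mul hB20]
      refine le_trans ?_ (num_sqrt hC1 hC2 hn' hM0 hU hUn hK10 hL hX0 hε hMc)
      apply Real.sqrt_le_sqrt
      apply mul_le_mul hB2le hQle hQ0 (by positivity)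
    have hNFb : U * F ≤ X * (ε / 2) := by
      have h1 : 2 * M * (U * F) ≤ 2 * M * (X * (ε / 2)) := by
        calc 2 * M * (U * F) ≤ 2 * M * ((2 * n) * (K0 * (2 * M) ^ (n - 2))) := by gcongr
          _ = (2 * n * K0) * ((2 * M) ^ (n - 2) * (2 * M)) := by ring
          _ = (2 * n * K0) * X := by rw [eX2]
          _ ≤ (M * ε) * X := by
              rw [div_le_iff₀ hε] at hMd
              gcongr
          _ = 2 * M * (X * (ε / 2)) := by ring
      exact le_of_mul_le_mul_left h1 (by positivity)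
    rw [eX]
    calc _ ≤ 2 * M * (Real.sqrt B2 * Real.sqrt Q + U * F) := hv
      _ ≤ 2 * M * (X * (8 * Real.sqrt (C1 * C2) * Real.sqrt n * Real.exp (-U / 16) + ε / 2) +
          X * (ε / 2)) := by gcongr
      _ = _ := by ring

end Pool.Agent.K1H85.ST
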