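import Pool.Agent.K1H64.ST.Defs

/-! # Grids, boxes, prefixes: basic facts (pieces of the proof of frozen statement S09154) -/

set_option autoImplicit false

noncomputable section

namespace Pool.Agent.K1H85.ST

open Pool.Agent.K1H64.ST
open Finset hiding box

theorem mem_box {M : ℕ} {t : ℤ} :
    t ∈ box M ↔ (1 - 2 * (M : ℤ) ≤ t ∧ t ≤ 2 * (M : ℤ) - 1) ∧ Odd t := by
  simp [K1H64.ST.box]

theorem box_eq (M : ℕ) : box M = (range (2 * M)).image (fun j : ℕ => 1 - 2 * (M : ℤ) + 2 * j) := by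
  ext t
  rw [mem_box]
  simp only [mem_image, mem_range]
  constructor
  · rintro ⟨⟨h1, h2⟩, k, hk⟩
    refine ⟨(k + M).toNat, ?_, ?_⟩ <;> omega
  · rintro ⟨j, hj, rfl⟩
    refine ⟨⟨by omega, by omega⟩, ⟨(j : ℤ) - M, by ring⟩⟩

theorem card_box (M : ℕ) : (box M).card = 2 * M := by
  rw [box_eq, card_image_of_injective, card_range]
  intro a b h
  simp only at h
  omega

theorem mem_grid {n M : ℕ} {x : Fin n → ℤ} : x ∈ grid n M ↔ ∀ l, x l ∈ box M := by
  simp [grid, Fintype.mem_piFinset]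

theorem card_grid (n M : ℕ) : (grid n M).card = (2 * M) ^ n := by
  simp [grid, Fintype.card_piFinset, card_box]

theorem update_mem_grid {n M : ℕ} {x : Fin n → ℤ} (hx : x ∈ grid n M) (l : Fin n) {t : ℤ}
    (ht : t ∈ box M) : Function.update x l t ∈ grid n M := by
  rw [mem_grid] at hx ⊢
  intro k
  by_cases h : k = l
  · subst h; simpa using ht
  · simpa [Function.update_of_ne h] using hx k

/-- Summing over all lines in direction `l`. -/
theorem line_sum {n M : ℕ} (l : Fin n) (F : (Fin n → ℤ) → ℝ) :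
    ∑ x ∈ grid n M, ∑ t ∈ box M, F (Function.update x l t) = 2 * M * ∑ x ∈ grid n M, F x := by
  have h1 : ∑ x ∈ grid n M, ∑ t ∈ box M, F (Function.update x l t) =
      ∑ q ∈ grid n M ×ˢ box M, F (Function.update q.1 l q.2) := by
    rw [Finset.sum_product]
  have h2 : ∑ q ∈ grid n M ×ˢ box M, F (Function.update q.1 l q.2) =
      ∑ q ∈ grid n M ×ˢ box M, F q.1 := by
    refine Finset.sum_nbij' (fun q => (Function.update q.1 l q.2, q.1 l))
      (fun q => (Function.update q.1 l q.2, q.1 l)) ?_ ?_ ?_ ?_ ?_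
    · rintro ⟨x, t⟩ h
      simp only [mem_product] at h ⊢
      exact ⟨update_mem_grid h.1 l h.2, (mem_grid.1 h.1) l⟩
    · rintro ⟨x, t⟩ h
      simp only [mem_product] at h ⊢
      exact ⟨update_mem_grid h.1 l h.2, (mem_grid.1 h.1) l⟩
    · rintro ⟨x, t⟩ _
      simp
    · rintro ⟨x, t⟩ _
      simp
    · rintro ⟨x, t⟩ _
      simp
  rw [h1, h2, Finset.sum_product, Finset.mul_sum]
  refine Finset.sum_congr rfl (fun x _ => ?_)
  simp [card_box]

/-- Points of `S` with the same first `j` coordinates as `x`. -/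
def W {n : ℕ} (S : Finset (Fin n → ℤ)) (j : ℕ) (x : Fin n → ℤ) : Finset (Fin n → ℤ) :=
  S.filter (fun z => ∀ k : Fin n, (k : ℕ) < j → z k = x k)

theorem pre_eq_W {n : ℕ} (S : Finset (Fin n → ℤ)) (l : Fin n) (x : Fin n → ℤ) :
    pre S l x = W S l x := by
  unfold pre W
  ext z
  simp only [mem_filter, Fin.lt_def]

theorem mem_W_self {n : ℕ} {S : Finset (Fin n → ℤ)} (j : ℕ) {x : Fin n → ℤ} (hx : x ∈ S) :
    x ∈ W S j x := by
  simp [W, hx]

theorem card_W_pos {n : ℕ} {S : Finset (Fin n → ℤ)} (j : ℕ) {x : Fin n → ℤ} (hx : x ∈ S) :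
    (0 : ℝ) < ((W S j x).card : ℝ) := by
  exact_mod_cast Finset.card_pos.2 ⟨x, mem_W_self j hx⟩

/-- The entropic chain inequality. -/
theorem chain {n M : ℕ} (hM : 1 ≤ M) (S : Finset (Fin n → ℤ)) (x : Fin n → ℤ) (hx : x ∈ S) :
    ∑ l : Fin n, (1 - M * ((W S ((l : ℕ) + 1) x).card : ℝ) / ((W S (l : ℕ) x).card : ℝ)) ≤
      Real.log ((S.card : ℝ) / (M : ℝ) ^ n) := by
  have hM0 : (0 : ℝ) < M := by exact_mod_cast hM
  set h : ℕ → ℝ := fun j => Real.log ((W S j x).card : ℝ) with hh
  have h1 : ∀ l : Fin n, (1 - M * ((W S ((l : ℕ) + 1) x).card : ℝ) / ((W S (l : ℕ) x).card : ℝ)) ≤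
      (h l - h (l + 1) - Real.log M) := by
    intro l
    have p1 := card_W_pos ((l : ℕ) + 1) hx
    have p2 := card_W_pos (l : ℕ) hx
    have h2 := Real.log_le_sub_one_of_pos
      (div_pos (mul_pos hM0 p1) p2)
    rw [Real.log_div (mul_pos hM0 p1).ne' p2.ne', Real.log_mul hM0.ne' p1.ne'] at h2
    simp only [hh]
    linarith
  calc _ ≤ ∑ l : Fin n, (h l - h (l + 1) - Real.log M) := Finset.sum_le_sum (fun l _ => h1 l)
    _ = ∑ j ∈ range n, (h j - h (j + 1) - Real.log M) :=
        Fin.sum_univ_eq_sum_range (fun j => h j - h (j + 1) - Real.log M) n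
    _ = h 0 - h n - n * Real.log M := by
        rw [Finset.sum_sub_distrib, Finset.sum_range_sub']
        simp
    _ = Real.log ((S.card : ℝ) / (M : ℝ) ^ n) := by
        have hS : (0 : ℝ) < S.card := by exact_mod_cast Finset.card_pos.2 ⟨x, hx⟩
        have e0 : W S 0 x = S := by simp [W]
        have en : W S n x = {x} := by
          ext z
          simp only [W, mem_filter, mem_singleton]
          constructor
          · rintro ⟨_, h⟩
            exact funext (fun k => h k k.2)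
          · rintro rfl
            exact ⟨hx, fun _ _ => rfl⟩
        rw [Real.log_div hS.ne' (pow_pos hM0 n).ne', Real.log_pow]
        simp only [hh, e0, en]
        simp

end Pool.Agent.K1H85.ST
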