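import Pool.Agent.K1H85.ST.Line

/-! # Summation by parts on lines; jump edges and full pairs -/

set_option autoImplicit false

noncomputable section

namespace Pool.Agent.K1H85.ST

open Pool.Agent.K1H64.ST
open Finset hiding box

theorem sum_box (M : ℕ) (F : ℤ → ℝ) :
    ∑ t ∈ box M, F t = ∑ j ∈ range (2 * M), F (1 - 2 * (M : ℤ) + 2 * j) := by
  rw [box_eq, Finset.sum_image]
  intro a _ b _ h
  simp only at h
  omega

theorem parts (c : ℝ) (h : ℕ → ℝ) (K : ℕ) :
    ∑ j ∈ range K, (2 * (j : ℝ) + 2 - c) * (h (j + 1) - h j) =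
      (2 * K - c) * h K + c * h 0 - 2 * ∑ j ∈ range K, h j := by
  induction K with
  | zero => simp
  | succ K ih => rw [sum_range_succ, ih, sum_range_succ]; push_cast; ring

theorem box_parts_true {M : ℕ} (hM : 1 ≤ M) (h : ℤ → ℝ) :
    ∑ u ∈ box M, (if u + 2 ∈ box M then ((u : ℝ) + 1) * (h (u + 2) - h u) else 0) =
      2 * M * (h (1 - 2 * M) + h (2 * M - 1)) - 2 * ∑ t ∈ box M, h t := by
  obtain ⟨K, hK⟩ : ∃ K, 2 * M = K + 1 := ⟨2 * M - 1, by omega⟩
  rw [sum_box, sum_box, hK, sum_range_succ, if_neg, sum_range_succ]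
  · have h1 : ∀ j ∈ range K, (if 1 - 2 * (M : ℤ) + 2 * (j : ℤ) + 2 ∈ box M then
        (((1 - 2 * (M : ℤ) + 2 * (j : ℤ) : ℤ) : ℝ) + 1) * (h (1 - 2 * (M : ℤ) + 2 * (j : ℤ) + 2) -
          h (1 - 2 * (M : ℤ) + 2 * (j : ℤ))) else 0) =
        (2 * (j : ℝ) + 2 - 2 * M) * ((fun k : ℕ => h (1 - 2 * (M : ℤ) + 2 * (k : ℤ))) (j + 1) -
          (fun k : ℕ => h (1 - 2 * (M : ℤ) + 2 * (k : ℤ))) j) := by
      intro j hj
      rw [mem_range] at hj
      rw [if_pos]
      · have e : 1 - 2 * (M : ℤ) + 2 * (j : ℤ) + 2 = 1 - 2 * (M : ℤ) + 2 * ((j + 1 : ℕ) : ℤ) := by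
          push_cast; ring
        rw [e]
        push_cast
        ring
      · rw [mem_box]
        refine ⟨⟨by omega, by omega⟩, ⟨(j : ℤ) + 1 - M, by ring⟩⟩
    have hp : ∑ j ∈ range K, (2 * (j : ℝ) + 2 - 2 * M) *
        ((fun k : ℕ => h (1 - 2 * (M : ℤ) + 2 * (k : ℤ))) (j + 1) -
          (fun k : ℕ => h (1 - 2 * (M : ℤ) + 2 * (k : ℤ))) j) = _ :=
      parts (2 * (M : ℝ)) (fun k : ℕ => h (1 - 2 * (M : ℤ) + 2 * (k : ℤ))) K
    rw [Finset.sum_congr rfl h1, hp]
    have hK' : (2 * (M : ℝ)) = K + 1 := by exact_mod_cast hK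
    have e1 : (1 - 2 * (M : ℤ) + 2 * (K : ℤ)) = 2 * M - 1 := by
      have : (2 * (M : ℤ)) = K + 1 := by exact_mod_cast hK
      linarith
    have e2 : (1 - 2 * (M : ℤ) + 2 * ((0 : ℕ) : ℤ)) = 1 - 2 * M := by simp
    rw [e1, e2, hK']
    ring
  · rw [mem_box]
    intro hh
    have := hh.1.2
    have : (2 * (M : ℤ)) = K + 1 := by exact_mod_cast hK
    omega

theorem neg_mem_box {M : ℕ} {t : ℤ} : -t ∈ box M ↔ t ∈ box M := by
  rw [mem_box, mem_box, odd_neg]
  constructor <;> rintro ⟨⟨h1, h2⟩, h3⟩ <;> exact ⟨⟨by linarith, by linarith⟩, h3⟩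

theorem sum_box_neg (M : ℕ) (F : ℤ → ℝ) : ∑ t ∈ box M, F (-t) = ∑ t ∈ box M, F t := by
  refine Finset.sum_nbij' (fun t => -t) (fun t => -t) ?_ ?_ ?_ ?_ ?_
  · intro t ht; exact neg_mem_box.2 ht
  · intro t ht; exact neg_mem_box.2 ht
  · intro t _; simp
  · intro t _; simp
  · intro t _; rfl

theorem box_parts {M : ℕ} (hM : 1 ≤ M) (b : Bool) (h : ℤ → ℝ) :
    ∑ u ∈ box M, (if u + 2 * sn b ∈ box M then (((sn b * u : ℤ) : ℝ) + 1) *
      (h (u + 2 * sn b) - h u) else 0) =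
      2 * M * (h (1 - 2 * M) + h (2 * M - 1)) - 2 * ∑ t ∈ box M, h t := by
  cases b
  · have h1 := box_parts_true hM (fun t => h (-t))
    rw [sum_box_neg M h] at h1
    rw [← sum_box_neg M]
    have e1 : -(1 - 2 * (M : ℤ)) = 2 * M - 1 := by ring
    have e2 : -(2 * (M : ℤ) - 1) = 1 - 2 * M := by ring
    rw [e1, e2, add_comm (h (2 * (M : ℤ) - 1))] at h1
    rw [← h1]
    refine Finset.sum_congr rfl (fun t ht => ?_)
    have e3 : -t + 2 * sn false = -(t + 2) := by simp [sn]; ring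
    rw [e3]
    simp only [neg_mem_box]
    simp [sn]
  · have h1 := box_parts_true hM h
    rw [← h1]
    simp [sn]

theorem update_mem_grid_iff {n M : ℕ} {x : Fin n → ℤ} (hx : x ∈ grid n M) (l : Fin n) {t : ℤ} :
    Function.update x l t ∈ grid n M ↔ t ∈ box M := by
  constructor
  · intro h
    have := mem_grid.1 h l
    rwa [Function.update_self] at this
  · exact update_mem_grid hx l

theorem grid_parts {n M : ℕ} (hM : 1 ≤ M) (i : Fin n) (b : Bool) (h : (Fin n → ℤ) → ℝ) :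
    ∑ x ∈ grid n M, (if nb x i b ∈ grid n M then (((sn b * x i : ℤ) : ℝ) + 1) *
      (h (nb x i b) - h x) else 0) =
      2 * M * ∑ x ∈ (grid n M).filter (fun x : Fin n → ℤ => |x i| = 2 * (M : ℤ) - 1), h x -
        2 * ∑ x ∈ grid n M, h x := by
  have hM0 : (0 : ℝ) < 2 * M := by
    have : (1 : ℝ) ≤ M := by exact_mod_cast hM
    linarith
  refine mul_left_cancel₀ hM0.ne' ?_
  rw [← line_sum (M := M) i (fun x => (if nb x i b ∈ grid n M then (((sn b * x i : ℤ) : ℝ) + 1) *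
      (h (nb x i b) - h x) else 0))]
  have h1 : ∀ x ∈ grid n M, ∑ t ∈ box M, (if nb (Function.update x i t) i b ∈ grid n M then
      (((sn b * (Function.update x i t) i : ℤ) : ℝ) + 1) *
      (h (nb (Function.update x i t) i b) - h (Function.update x i t)) else 0) =
      2 * M * (h (Function.update x i (1 - 2 * M)) + h (Function.update x i (2 * M - 1))) -
        2 * ∑ t ∈ box M, h (Function.update x i t) := by
    intro x hx
    rw [← box_parts hM b (fun t => h (Function.update x i t))]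
    refine Finset.sum_congr rfl (fun t _ => ?_)
    rw [nb_update, Function.update_self]
    simp only [update_mem_grid_iff hx]
  rw [Finset.sum_congr rfl h1, Finset.sum_sub_distrib, ← Finset.mul_sum, ← Finset.mul_sum,
    line_sum (M := M) i h]
  have h2 : ∑ x ∈ grid n M, (h (Function.update x i (1 - 2 * M)) +
      h (Function.update x i (2 * M - 1))) =
      2 * M * ∑ x ∈ (grid n M).filter (fun x : Fin n → ℤ => |x i| = 2 * (M : ℤ) - 1), h x := by
    rw [Finset.sum_filter, ← line_sum (M := M) i (fun x : Fin n → ℤ => if |x i| = 2 * (M : ℤ) - 1 then h x else 0)]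
    refine Finset.sum_congr rfl (fun x _ => ?_)
    simp only [Function.update_self]
    have hne : (1 - 2 * (M : ℤ)) ≠ 2 * M - 1 := by omega
    have hfil : (box M).filter (fun t => |t| = 2 * (M : ℤ) - 1) = {1 - 2 * (M : ℤ), 2 * (M : ℤ) - 1} := by
      ext t
      simp only [mem_filter, mem_insert, mem_singleton, mem_box]
      constructor
      · rintro ⟨_, h⟩
        rcases abs_eq (show (0 : ℤ) ≤ 2 * M - 1 by omega) |>.1 h with h | h
        · right; exact h
        · left; linarith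
      · rintro (rfl | rfl)
        · refine ⟨⟨⟨by omega, by omega⟩, ⟨-M, by ring⟩⟩, ?_⟩
          rw [abs_of_nonpos (by omega)]; ring
        · refine ⟨⟨⟨by omega, by omega⟩, ⟨M - 1, by ring⟩⟩, ?_⟩
          rw [abs_of_nonneg (by omega)]
    rw [← Finset.sum_filter, hfil, Finset.sum_pair hne]
  rw [h2]
  ring

/-- Telescoping on a line. -/
theorem box_tele {M : ℕ} (h : ℤ → ℝ) {s t : ℤ} (hs : s ∈ box M) (ht : t ∈ box M) :
    |h s - h t| ≤ ∑ u ∈ box M, (if u + 2 ∈ box M then |h (u + 2) - h u| else 0) := by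
  wlog hst : s ≤ t with H
  · rw [abs_sub_comm]
    exact H h ht hs (le_of_not_ge hst)
  rw [box_eq, mem_image] at hs ht
  obtain ⟨j, hj, rfl⟩ := hs
  obtain ⟨k, hk, rfl⟩ := ht
  rw [mem_range] at hj hk
  have hjk : j ≤ k := by omega
  set f : ℕ → ℝ := fun m => h (1 - 2 * (M : ℤ) + 2 * (m : ℤ)) with hf
  have h1 : h (1 - 2 * (M : ℤ) + 2 * (k : ℤ)) - h (1 - 2 * (M : ℤ) + 2 * (j : ℤ)) =
      ∑ m ∈ Ico j k, (f (m + 1) - f m) := by
    rw [Finset.sum_Ico_sub f hjk]
  rw [abs_sub_comm, h1, sum_box]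
  calc |∑ m ∈ Ico j k, (f (m + 1) - f m)| ≤ ∑ m ∈ Ico j k, |f (m + 1) - f m| :=
        Finset.abs_sum_le_sum_abs _ _
    _ = ∑ m ∈ Ico j k, (if 1 - 2 * (M : ℤ) + 2 * (m : ℤ) + 2 ∈ box M then
        |h (1 - 2 * (M : ℤ) + 2 * (m : ℤ) + 2) - h (1 - 2 * (M : ℤ) + 2 * (m : ℤ))| else 0) := by
        refine Finset.sum_congr rfl (fun m hm => ?_)
        rw [mem_Ico] at hm
        have e : 1 - 2 * (M : ℤ) + 2 * (m : ℤ) + 2 = 1 - 2 * (M : ℤ) + 2 * ((m + 1 : ℕ) : ℤ) := by
          push_cast; ring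
        rw [if_pos]
        · rw [e]
        · rw [mem_box]
          refine ⟨⟨by omega, by omega⟩, ⟨(m : ℤ) + 1 - M, by ring⟩⟩
    _ ≤ _ := by
        refine Finset.sum_le_sum_of_subset_of_nonneg ?_ ?_
        · intro m hm
          rw [mem_Ico] at hm
          rw [mem_range]
          omega
        · intro m _ _
          split_ifs
          · exact abs_nonneg _
          · exact le_rfl

theorem flipS_single {n : ℕ} (i : Fin n) (x : Fin n → ℤ) :
    flipS {i} x = Function.update x i (- x i) := by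
  funext k
  unfold flipS
  by_cases hk : k = i
  · subst hk; simp
  · simp [hk]

/-- The variation under one sign flip is at most the variation over the edges of the line. -/
theorem flip_le {n M : ℕ} (i : Fin n) (h : (Fin n → ℤ) → ℝ) :
    ∑ x ∈ grid n M, |h x - h (flipS {i} x)| ≤
      2 * M * ∑ x ∈ grid n M, (if nb x i true ∈ grid n M then |h (nb x i true) - h x| else 0) := by
  rw [← line_sum (M := M) i (fun x => (if nb x i true ∈ grid n M then |h (nb x i true) - h x| else 0))]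
  refine Finset.sum_le_sum (fun x hx => ?_)
  rw [flipS_single]
  have hxi := mem_grid.1 hx i
  have h1 := box_tele (M := M) (fun t => h (Function.update x i t)) hxi (neg_mem_box.2 hxi)
  simp only [Function.update_eq_self] at h1
  refine h1.trans (le_of_eq ?_)
  refine Finset.sum_congr rfl (fun t _ => ?_)
  rw [nb_update]
  simp only [update_mem_grid_iff hx]
  simp [sn]

/-! ## Jump edges and full pairs -/

theorem JE_sum_gen {n : ℕ} {A : Finset (Cube n)} (P : Pot n A) (M : ℕ)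
    (Φ : (Fin n → ℤ) × Fin n × Bool → ℝ)
    (h0 : ∀ x i b, P.T (nb x i b) = P.T x → Φ (x, i, b) = 0) :
    ∑ t ∈ P.JE M, Φ t = ∑ i : Fin n, ∑ b : Bool, ∑ x ∈ grid n M,
      (if nb x i b ∈ grid n M then Φ (x, i, b) else 0) := by
  unfold Pot.JE
  rw [Finset.sum_filter, Finset.sum_product]
  have h1 : ∀ x ∈ grid n M, ∑ y ∈ (univ ×ˢ univ : Finset (Fin n × Bool)),
      (if nb (x, y).1 (x, y).2.1 (x, y).2.2 ∈ grid n M ∧
        P.T (nb (x, y).1 (x, y).2.1 (x, y).2.2) ≠ P.T (x, y).1 then Φ (x, y) else 0) =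
      ∑ i : Fin n, ∑ b : Bool, (if nb x i b ∈ grid n M then Φ (x, i, b) else 0) := by
    intro x _
    rw [Finset.sum_product]
    refine Finset.sum_congr rfl (fun i _ => Finset.sum_congr rfl (fun b _ => ?_))
    dsimp only
    by_cases h : P.T (nb x i b) = P.T x
    · rw [if_neg (fun hh => hh.2 h), h0 x i b h]
      simp
    · simp [h]
  rw [Finset.sum_congr rfl h1, Finset.sum_comm]
  refine Finset.sum_congr rfl (fun i _ => ?_)
  rw [Finset.sum_comm]

theorem mem_JE {n : ℕ} {A : Finset (Cube n)} (P : Pot n A) {M : ℕ} {x : Fin n → ℤ} {i : Fin n}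
    {b : Bool} : (x, i, b) ∈ P.JE M ↔ x ∈ grid n M ∧ nb x i b ∈ grid n M ∧
      P.T (nb x i b) ≠ P.T x := by
  simp [Pot.JE]

theorem JE_mono {n : ℕ} {A : Finset (Cube n)} (P : Pot n A) {x : Fin n → ℤ} {i : Fin n}
    {b : Bool} (h : P.T (nb x i b) ≠ P.T x) : P.T x i = !b ∧ P.T (nb x i b) i = b := by
  have h1 : sn b * x i < sn b * (x i + 2 * sn b) := by
    have := sn_sq b
    nlinarith
  have h2 := mono_line P i x b h1
  rw [Function.update_eq_self] at h2
  exact h2 (Ne.symm h)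

open Classical in
/-- Decomposition of a sum over the jump edges. -/
theorem JE_full {n : ℕ} {A : Finset (Cube n)} (P : Pot n A) (M : ℕ)
    (Φ : (Fin n → ℤ) × Fin n × Bool → ℝ) :
    ∑ t ∈ P.JE M, Φ t =
      ∑ p ∈ grid n M, ∑ a ∈ A, (if P.Full M p a then
        ∑ i ∈ univ.filter (fun i => a i ≠ P.T p i), Φ (p, i, a i) else 0) +
      ∑ t ∈ (P.JE M).filter (fun t => ¬ P.Full M t.1 (P.T (nb t.1 t.2.1 t.2.2))), Φ t := by
  rw [← Finset.sum_filter_add_sum_filter_not (P.JE M)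
    (fun t => P.Full M t.1 (P.T (nb t.1 t.2.1 t.2.2)))]
  congr 1
  have h1 : ∑ p ∈ grid n M, ∑ a ∈ A, (if P.Full M p a then
        ∑ i ∈ univ.filter (fun i => a i ≠ P.T p i), Φ (p, i, a i) else 0) =
      ∑ s ∈ ((grid n M) ×ˢ (A ×ˢ (univ : Finset (Fin n)))).filter
        (fun s => P.Full M s.1 s.2.1 ∧ s.2.1 s.2.2 ≠ P.T s.1 s.2.2),
        Φ (s.1, s.2.2, s.2.1 s.2.2) := by
    rw [Finset.sum_filter, Finset.sum_product]
    refine Finset.sum_congr rfl (fun p _ => ?_)
    rw [Finset.sum_product]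
    refine Finset.sum_congr rfl (fun a _ => ?_)
    dsimp only
    by_cases hF : P.Full M p a
    · simp only [hF, if_true, true_and]
      rw [Finset.sum_filter]
    · simp [hF]
  rw [h1]
  refine Finset.sum_nbij' (fun t => (t.1, P.T (nb t.1 t.2.1 t.2.2), t.2.1))
    (fun s => (s.1, s.2.2, s.2.1 s.2.2)) ?_ ?_ ?_ ?_ ?_
  · rintro ⟨p, i, b⟩ h
    rw [mem_filter, mem_JE] at h
    rw [mem_filter]
    refine ⟨by simp [h.1.1, P.mem], h.2, ?_⟩
    dsimp only
    have := JE_mono P h.1.2.2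
    rw [this.1, this.2]
    cases b <;> simp
  · rintro ⟨p, a, i⟩ h
    rw [mem_filter] at h
    obtain ⟨h1, h2, h3⟩ := h
    dsimp only at h2 h3
    rw [mem_filter, mem_JE]
    dsimp only
    obtain ⟨h4, h5⟩ := h2.2 i h3
    rw [mem_product] at h1
    refine ⟨⟨h1.1, h4, ?_⟩, ?_⟩
    · rw [h5]; exact h2.1
    · rw [h5]; exact h2
  · rintro ⟨p, i, b⟩ h
    rw [mem_filter, mem_JE] at h
    dsimp only
    have := JE_mono P h.1.2.2
    rw [this.2]
  · rintro ⟨p, a, i⟩ h
    rw [mem_filter] at h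
    obtain ⟨h1, h2, h3⟩ := h
    dsimp only at h2 h3 ⊢
    rw [(h2.2 i h3).2]
  · rintro ⟨p, i, b⟩ h
    rw [mem_filter, mem_JE] at h
    dsimp only
    have := JE_mono P h.1.2.2
    rw [this.2]

theorem sn_ne_eq {b c : Bool} (h : b ≠ c) : sn c = - sn b := by
  cases b <;> cases c <;> simp [sn] at h ⊢

/-- The linear forms at a full pair. -/
theorem full_pair {n : ℕ} {A : Finset (Cube n)} (P : Pot n A) {M : ℕ} {p : Fin n → ℤ} {a : Cube n}
    (ha : a ∈ A) (hF : P.Full M p a) :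
    ∃ η : ℝ, 0 < η ∧ η < 4 ∧
      ∑ i ∈ univ.filter (fun i => a i ≠ P.T p i), (((sn (a i) * p i : ℤ) : ℝ) + 1) =
        (P.c a - P.c (P.T p) - η) / 2 + (hammingDist a (P.T p) : ℝ) := by
  have h1 : dot a p - dot (P.T p) p =
      2 * ∑ i ∈ univ.filter (fun i => a i ≠ P.T p i), sn (a i) * p i := by
    unfold dot
    rw [← Finset.sum_sub_distrib, Finset.mul_sum, Finset.sum_filter]
    refine Finset.sum_congr rfl (fun i _ => ?_)
    by_cases h : a i = P.T p i
    · simp [h]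
    · rw [if_pos h, sn_ne_eq h]; ring
  refine ⟨(dot (P.T p) p - P.c (P.T p)) - (dot a p - P.c a), ?_, ?_, ?_⟩
  · have := P.best p a ha hF.1
    linarith
  · obtain ⟨l, hl⟩ : ∃ l, a l ≠ P.T p l := by
      by_contra h
      push Not at h
      exact hF.1 (funext h)
    obtain ⟨h2, h3⟩ := hF.2 l hl
    have h4 := P.best (nb p l (a l)) (P.T p) (P.mem p) (by rw [h3]; exact Ne.symm hF.1)
    rw [h3] at h4
    unfold nb at h4
    rw [dot_update, dot_update, sn_ne_eq hl] at h4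
    have h5 := sn_sq (a l)
    have e1 : dot a p + sn (a l) * (p l + 2 * sn (a l) - p l) = dot a p + 2 := by
      have : sn (a l) * (p l + 2 * sn (a l) - p l) = 2 * (sn (a l) * sn (a l)) := by ring
      rw [this, h5]; ring
    have e2 : dot (P.T p) p + -sn (a l) * (p l + 2 * sn (a l) - p l) = dot (P.T p) p - 2 := by
      have : -sn (a l) * (p l + 2 * sn (a l) - p l) = -2 * (sn (a l) * sn (a l)) := by ring
      rw [this, h5]; ring
    rw [e1, e2] at h4
    push_cast at h4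
    linarith
  · rw [Finset.sum_add_distrib]
    have h2 : ∑ i ∈ univ.filter (fun i => a i ≠ P.T p i), ((sn (a i) * p i : ℤ) : ℝ) =
        ((dot a p : ℝ) - (dot (P.T p) p : ℝ)) / 2 := by
      have := congrArg (fun z : ℤ => (z : ℝ)) h1
      push_cast at this ⊢
      linarith
    rw [h2]
    have h3 : ∑ i ∈ univ.filter (fun i => a i ≠ P.T p i), (1 : ℝ) = (hammingDist a (P.T p) : ℝ) := by
      simp [hammingDist]
    rw [h3]
    ring

/-- Cells are up-sets. -/
theorem cell_up {n : ℕ} {A : Finset (Cube n)} (P : Pot n A) {M : ℕ} {a : Cube n} (ha : a ∈ A)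
    {x : Fin n → ℤ} (hx : x ∈ P.cell M a) {y : Fin n → ℤ} (hy : y ∈ grid n M)
    (h : ∀ l, sn (a l) * x l ≤ sn (a l) * y l) : y ∈ P.cell M a := by
  rw [Pot.cell, mem_filter] at hx ⊢
  refine ⟨hy, ?_⟩
  by_contra hne
  have h1 := P.best y a ha (fun h => hne h.symm)
  have h2 := P.best x (P.T y) (P.mem y) (by rw [hx.2]; exact hne)
  rw [hx.2] at h2
  have h3 : dot (P.T y) y - dot (P.T y) x ≤ dot a y - dot a x := by
    unfold dot
    rw [← Finset.sum_sub_distrib, ← Finset.sum_sub_distrib]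
    refine Finset.sum_le_sum (fun l _ => ?_)
    by_cases hl : a l = P.T y l
    · rw [hl]
    · rw [sn_ne_eq hl]
      have := h l
      linarith
  have h4 : ((dot (P.T y) y : ℝ) - dot (P.T y) x) ≤ dot a y - dot a x := by exact_mod_cast h3
  linarith

end Pool.Agent.K1H85.ST
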